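import Mathlib
import Pool.Agent.H87.Lib.Helper332.SAD.SpaceDefs

set_option autoImplicit false

namespace Pool.Agent.Helper332.SADSpace

open Cardinal Set Topology


theorem om_Iio_countable (a : Om) : (Set.Iio a).Countable := by
  have h : #(Set.Iio a) < ℵ₁ := Cardinal.mk_Iio_toType_ord_lt a
  rw [← Cardinal.le_aleph0_iff_set_countable]
  have h2 : (ℵ₁ : Cardinal.{0}) = Order.succ ℵ₀ := Cardinal.succ_aleph0.symm
  exact Order.lt_succ_iff.mp (h.trans_eq h2)

theorem om_not_countable : ¬ (Set.univ : Set Om).Countable := by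
  intro h
  have h1 : #Om ≤ ℵ₀ := by
    have := Cardinal.le_aleph0_iff_set_countable.mpr h
    rwa [Cardinal.mk_univ] at this
  have h2 : #Om = ℵ₁ := by
    rw [Cardinal.mk_toType, Cardinal.card_ord]
  rw [h2] at h1
  exact absurd h1 (not_le.mpr Cardinal.aleph0_lt_aleph_one)

theorem om_bdd (s : ℕ → Om) : ∃ a, ∀ n, s n < a := by
  by_contra hcon
  push Not at hcon
  apply om_not_countable
  have : (Set.univ : Set Om) ⊆ ⋃ n, (Set.Iio (s n) ∪ {s n}) := by
    intro a _
    obtain ⟨n, hn⟩ := hcon a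
    rw [Set.mem_iUnion]
    refine ⟨n, ?_⟩
    rcases lt_or_eq_of_le hn with h | h
    · exact Or.inl h
    · exact Or.inr h
  refine Set.Countable.mono this (Set.countable_iUnion fun n => ?_)
  exact (om_Iio_countable _).union (Set.countable_singleton _)

theorem om_sup (s : ℕ → Om) : ∃ a, (∀ n, s n < a) ∧ ∀ b < a, ∃ n, b ≤ s n := by
  obtain ⟨a, ha, hmin⟩ := (wellFounded_lt (α := Om)).has_min {a | ∀ n, s n < a} (om_bdd s)
  refine ⟨a, ha, fun b hb => ?_⟩
  by_contra hcon
  push Not at hcon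
  exact hmin b hcon hb

/-- a left-separated compact space has no uncountable free sequence -/
theorem no_free (K : Type) [TopologicalSpace K] [CompactSpace K] [T2Space K]
    (hK : LeftSeparated K) (x : Om → K) :
    ¬ ∀ a, Disjoint (closure (x '' Set.Iio a)) (closure (x '' Set.Ici a)) := by
  intro hfree
  obtain ⟨r, hr, hcl⟩ := hK
  have hwf : WellFounded r := hr.wf
  let lim : Om → Prop := fun a => (∃ b, b < a) ∧ ∀ b < a, ∃ c, b < c ∧ c < a
  let F : Om → Set K := fun a => ⋂ b : {b : Om // b < a}, closure (x '' Set.Ico b.1 a)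
  have hne : ∀ a b, b < a → (x '' Set.Ico b a).Nonempty := fun a b hb =>
    ⟨x b, b, ⟨le_refl _, hb⟩, rfl⟩
  have hFne : ∀ a, (∃ b, b < a) → (F a).Nonempty := by
    intro a ha
    obtain ⟨b0, hb0⟩ := ha
    haveI : Nonempty {b : Om // b < a} := ⟨⟨b0, hb0⟩⟩
    apply IsCompact.nonempty_iInter_of_directed_nonempty_isCompact_isClosed
    · intro b c
      refine ⟨⟨max b.1 c.1, max_lt b.2 c.2⟩, ?_, ?_⟩
      · exact closure_mono (Set.image_mono (Set.Ico_subset_Ico_left (le_max_left _ _)))
      · exact closure_mono (Set.image_mono (Set.Ico_subset_Ico_left (le_max_right _ _)))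
    · intro b
      exact (hne a b.1 b.2).closure
    · intro b
      exact isClosed_closure.isCompact
    · intro b
      exact isClosed_closure
  have hy : ∀ a, ∃ y, lim a → (y ∈ F a ∧ ∀ z ∈ F a, ¬ r z y) := by
    intro a
    by_cases h : lim a
    · obtain ⟨y, hy, hmin⟩ := hwf.has_min (F a) (hFne a h.1)
      exact ⟨y, fun _ => ⟨hy, hmin⟩⟩
    · exact ⟨x a, fun h' => absurd h' h⟩
  choose y hy using hy
  have hb : ∀ a, lim a → ∃ b < a, ∀ z, r z (y a) → z ∉ closure (x '' Set.Ico b a) := by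
    intro a ha
    by_contra hcon
    push Not at hcon
    obtain ⟨b0, hb0⟩ := ha.1
    haveI : Nonempty {b : Om // b < a} := ⟨⟨b0, hb0⟩⟩
    have : (⋂ b : {b : Om // b < a}, ({z | r z (y a)} ∩ closure (x '' Set.Ico b.1 a))).Nonempty := by
      apply IsCompact.nonempty_iInter_of_directed_nonempty_isCompact_isClosed
      · intro b c
        refine ⟨⟨max b.1 c.1, max_lt b.2 c.2⟩, ?_, ?_⟩
        · exact Set.inter_subset_inter_right _
            (closure_mono (Set.image_mono (Set.Ico_subset_Ico_left (le_max_left _ _))))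
        · exact Set.inter_subset_inter_right _
            (closure_mono (Set.image_mono (Set.Ico_subset_Ico_left (le_max_right _ _))))
      · intro b
        obtain ⟨z, hz, hz'⟩ := hcon b.1 b.2
        exact ⟨z, hz, hz'⟩
      · intro b
        exact ((hcl _).inter isClosed_closure).isCompact
      · intro b
        exact (hcl _).inter isClosed_closure
    obtain ⟨z, hz⟩ := this
    rw [Set.mem_iInter] at hz
    have hzr : r z (y a) := (hz ⟨b0, hb0⟩).1
    have hzF : z ∈ F a := Set.mem_iInter.mpr fun b => (hz b).2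
    exact (hy a ha).2 z hzF hzr
  have star : ∀ a, lim a → ∃ b < a, ∀ a', lim a' → b < a' → a' < a → r (y a) (y a') := by
    intro a ha
    obtain ⟨b, hba, hb⟩ := hb a ha
    refine ⟨b, hba, fun a' ha' hba' ha'a => ?_⟩
    have h1 : y a' ∈ closure (x '' Set.Ico b a') := by
      have := (hy a' ha').1
      exact Set.mem_iInter.mp this ⟨b, hba'⟩
    have h2 : y a' ∈ closure (x '' Set.Ico b a) :=
      closure_mono (Set.image_mono (Set.Ico_subset_Ico_right ha'a.le)) h1
    have h3 : ¬ r (y a') (y a) := fun h => hb _ h h2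
    have h4 : y a' ∈ closure (x '' Set.Iio a') :=
      closure_mono (Set.image_mono (fun c hc => hc.2)) h1
    have h5 : y a ∈ closure (x '' Set.Ico a' a) := by
      have := (hy a ha).1
      exact Set.mem_iInter.mp this ⟨a', ha'a⟩
    have h6 : y a ∈ closure (x '' Set.Ici a') :=
      closure_mono (Set.image_mono (fun c hc => hc.1)) h5
    have h7 : y a' ≠ y a := by
      intro h
      exact Set.disjoint_left.mp (hfree a') h4 (h ▸ h6)
    rcases trichotomous_of r (y a') (y a) with h | h | h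
    · exact absurd h h3
    · exact absurd h h7
    · exact h
  have hlimsup : ∀ s : ℕ → Om, (∀ n, s n < s (n + 1)) → ∀ a, (∀ n, s n < a) →
      (∀ b < a, ∃ n, b ≤ s n) → lim a := by
    intro s hs a ha ha'
    refine ⟨⟨s 0, ha 0⟩, fun b hb => ?_⟩
    obtain ⟨n, hn⟩ := ha' b hb
    exact ⟨s (n + 1), lt_of_le_of_lt hn (hs n), ha (n + 1)⟩
  have hnext : ∀ c : Om, ∃ d, c < d := by
    intro c
    obtain ⟨a, ha⟩ := om_bdd fun _ => c
    exact ⟨a, ha 0⟩
  choose nx hnx using hnext
  have hunb : ∀ c : Om, ∃ a, lim a ∧ c < a := by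
    intro c
    let s : ℕ → Om := fun n => nx^[n] c
    have hs : ∀ n, s n < s (n + 1) := by
      intro n
      show nx^[n] c < nx^[n + 1] c
      rw [Function.iterate_succ_apply']
      exact hnx _
    obtain ⟨a, ha, ha'⟩ := om_sup s
    exact ⟨a, hlimsup s hs a ha ha', ha 0⟩
  have hm : ∀ c : Om, ∃ m, lim m ∧ c < m ∧ ∀ a, lim a → c < a → ¬ r (y a) (y m) := by
    intro c
    obtain ⟨a0, ha0, hc0⟩ := hunb c
    obtain ⟨z, hz, hmin⟩ := hwf.has_min (y '' {a | lim a ∧ c < a}) ⟨y a0, a0, ⟨ha0, hc0⟩, rfl⟩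
    obtain ⟨m, hm, rfl⟩ := hz
    exact ⟨m, hm.1, hm.2, fun a ha hca => hmin (y a) ⟨a, ⟨ha, hca⟩, rfl⟩⟩
  choose m hm1 hm2 hm3 using hm
  obtain ⟨c0⟩ : Nonempty Om := by
    by_contra hcon
    rw [not_nonempty_iff] at hcon
    exact om_not_countable (Set.countable_univ_iff.mpr inferInstance)
  let s : ℕ → Om := fun n => m^[n] c0
  have hss : ∀ n, s (n + 1) = m (s n) := by
    intro n
    show m^[n + 1] c0 = m (m^[n] c0)
    rw [Function.iterate_succ_apply']
  have hs : ∀ n, s n < s (n + 1) := by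
    intro n
    rw [hss]
    exact hm2 _
  obtain ⟨a, ha, ha'⟩ := om_sup s
  have hla : lim a := hlimsup s hs a ha ha'
  obtain ⟨b, hba, hb'⟩ := star a hla
  have key : ∀ n, s (n + 1) ≤ b := by
    intro n
    by_contra hcon
    push Not at hcon
    have h1 : lim (s (n + 1)) := by rw [hss]; exact hm1 _
    have h2 := hb' (s (n + 1)) h1 hcon (ha _)
    rw [hss] at h2
    exact hm3 (s n) a hla (ha n) h2
  obtain ⟨n, hn⟩ := ha' b hba
  exact absurd (lt_of_le_of_lt hn (hs n)) (not_lt.mpr (key n))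

end Pool.Agent.Helper332.SADSpace
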