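import Mathlib
import Pool.Agent.H87.Lib.Helper332.SAD.SpaceDefs

set_option autoImplicit false

namespace Pool.Agent.Helper332.SADSpace

open Cardinal Set Topology


theorem tight_of_no_free_cluster (K : Type) [TopologicalSpace K] [CompactSpace K] (S : Set K)
    (p : K) (hp : p ∈ closure S) (W : ℕ → Set K) (hW : ∀ n, IsOpen (W n)) (hpW : ∀ n, p ∈ W n) :
    ∃ z, (∃ T ⊆ S, T.Countable ∧ z ∈ closure T) ∧ ∀ n, z ∈ closure (W n) := by
  have h1 : ∀ n, ∃ z ∈ S, ∀ m ≤ n, z ∈ W m := by
    intro n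
    have ho : IsOpen (⋂ m ∈ Finset.range (n + 1), W m) := isOpen_biInter_finset (fun m _ => hW m)
    obtain ⟨z, hz, hzS⟩ := mem_closure_iff.1 hp _ ho (by simp [hpW])
    refine ⟨z, hzS, fun m hm => ?_⟩
    simp only [mem_iInter, Finset.mem_range] at hz
    exact hz m (by omega)
  choose z hzS hzW using h1
  obtain ⟨w, hw⟩ := exists_clusterPt_of_compactSpace (Filter.map z Filter.atTop)
  refine ⟨w, ⟨range z, ?_, countable_range z, ?_⟩, ?_⟩
  · rintro _ ⟨n, rfl⟩
    exact hzS n
  · rw [mem_closure_iff_clusterPt]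
    exact hw.mono (by rw [Filter.le_principal_iff]; exact Filter.range_mem_map)
  · intro n
    rw [mem_closure_iff_clusterPt]
    refine hw.mono ?_
    rw [Filter.le_principal_iff, Filter.mem_map]
    filter_upwards [Filter.eventually_ge_atTop n] with m hm
    exact hzW m n hm

theorem tight_of_no_free_choice {α β : Type} [LinearOrder α] [WellFoundedLT α]
    (R : (a : α) → (∀ b, b < a → β) → β → Prop) (h : ∀ a f, ∃ y, R a f y) :
    ∃ x : α → β, ∀ a, R a (fun b _ => x b) (x a) := by
  choose F hF using h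
  let x : α → β := WellFounded.fix (wellFounded_lt (α := α)) (C := fun _ => β) (fun a ih => F a ih)
  refine ⟨x, fun a => ?_⟩
  have : x a = F a (fun b _ => x b) := WellFounded.fix_eq _ _ _
  rw [this]
  exact hF a _

/-- a compact space without uncountable free sequences is countably tight -/
theorem tight_of_no_free (K : Type) [TopologicalSpace K] [CompactSpace K] [T2Space K]
    (hK : ∀ x : Om → K, ¬ ∀ a, Disjoint (closure (x '' Set.Iio a)) (closure (x '' Set.Ici a)))
    (S : Set K) (p : K) (hp : p ∈ closure S) : ∃ T ⊆ S, T.Countable ∧ p ∈ closure T := by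
  by_contra hcon
  -- the countable closure
  let Y : Set K := {z | ∃ T ⊆ S, T.Countable ∧ z ∈ closure T}
  have hpY : p ∉ Y := hcon
  have hYc : ∀ T' : Set K, T' ⊆ Y → T'.Countable → closure T' ⊆ Y := by
    intro T' hT' hc
    have h1 : ∀ t : T', ∃ T ⊆ S, T.Countable ∧ (t : K) ∈ closure T := fun t => hT' t.2
    choose T hTS hTc hTt using h1
    have := hc.to_subtype
    have h2 : T' ⊆ closure (⋃ t, T t) := by
      intro t ht
      exact closure_mono (subset_iUnion T ⟨t, ht⟩) (hTt ⟨t, ht⟩)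
    intro z hz
    refine ⟨⋃ t, T t, iUnion_subset hTS, countable_iUnion hTc, ?_⟩
    exact closure_minimal h2 isClosed_closure hz
  -- the separating neighbourhoods
  have hWex : ∀ T' : Set K, ∃ W : Set K, IsOpen W ∧ p ∈ W ∧
      (T' ⊆ Y → T'.Countable → Disjoint (closure T') (closure W)) := by
    intro T'
    by_cases hT : T' ⊆ Y ∧ T'.Countable
    · have h1 : p ∉ closure T' := fun h => hpY (hYc T' hT.1 hT.2 h)
      have h2 : (closure T')ᶜ ∈ 𝓝 p := isClosed_closure.isOpen_compl.mem_nhds h1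
      obtain ⟨t, ht, htc, hts⟩ := exists_mem_nhds_isClosed_subset h2
      refine ⟨interior t, isOpen_interior, mem_interior_iff_mem_nhds.2 ht, fun _ _ => ?_⟩
      have h3 : closure (interior t) ⊆ t := closure_minimal interior_subset htc
      rw [disjoint_comm]
      exact disjoint_left.2 fun z hz hz' => hts (h3 hz) hz'
    · exact ⟨univ, isOpen_univ, mem_univ _, fun h1 h2 => absurd ⟨h1, h2⟩ hT⟩
  choose W hWo hpW hWd using hWex
  -- the recursion
  have hcount : ∀ a : Om, (Iio a).Countable := by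
    intro a
    rw [Cardinal.countable_iff_lt_aleph_one]
    exact Cardinal.mk_Iio_toType_ord_lt a
  have hcount' : ∀ a : Om, (Iic a).Countable := by
    intro a
    rw [← Iio_insert]
    exact (hcount a).insert a
  obtain ⟨x, hx⟩ := tight_of_no_free_choice (α := Om) (β := K)
    (fun a f y => y ∈ Y ∧ ∀ b, (hb : b ≤ a) → y ∈ closure (W {z | ∃ c, ∃ hc : c < b,
      z = f c (lt_of_lt_of_le hc hb)})) (by
    intro a f
    have := (hcount' a).to_subtype
    have hne : Nonempty (Iic a) := ⟨⟨a, le_refl a⟩⟩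
    obtain ⟨e, he⟩ := exists_surjective_nat (Iic a)
    obtain ⟨z, hz, hz'⟩ := tight_of_no_free_cluster K S p hp
      (fun n => W {z | ∃ c, ∃ hc : c < (e n : Om), z = f c (lt_of_lt_of_le hc (e n).2)})
      (fun n => hWo _) (fun n => hpW _)
    refine ⟨z, hz, fun b hb => ?_⟩
    obtain ⟨n, hn⟩ := he ⟨b, hb⟩
    have h1 := hz' n
    have h2 : ((e n : Iic a) : Om) = b := by rw [hn]
    convert h1 using 3
    ext z'
    constructor
    · rintro ⟨c, hc, rfl⟩
      exact ⟨c, by rw [h2]; exact hc, rfl⟩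
    · rintro ⟨c, hc, rfl⟩
      exact ⟨c, by rw [← h2]; exact hc, rfl⟩)
  have himg : ∀ b : Om, {z | ∃ c, ∃ _ : c < b, z = x c} = x '' Iio b := by
    intro b
    ext z
    constructor
    · rintro ⟨c, hc, rfl⟩
      exact ⟨c, hc, rfl⟩
    · rintro ⟨c, hc, rfl⟩
      exact ⟨c, hc, rfl⟩
  have hxY : ∀ a, x a ∈ Y := fun a => (hx a).1
  have hxW : ∀ a b, b ≤ a → x a ∈ closure (W (x '' Iio b)) := by
    intro a b hb
    have := (hx a).2 b hb
    rw [himg b] at this
    exact this
  apply hK x
  intro a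
  have h1 : closure (x '' Ici a) ⊆ closure (W (x '' Iio a)) := by
    apply closure_minimal _ isClosed_closure
    rintro _ ⟨b, hb, rfl⟩
    exact hxW b a hb
  have h2 : x '' Iio a ⊆ Y := by
    rintro _ ⟨b, _, rfl⟩
    exact hxY b
  exact (hWd _ h2 ((hcount a).image x)).mono_right h1

end Pool.Agent.Helper332.SADSpace
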