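import Mathlib
import Pool.Agent.H87.Lib.Helper332.SAD.SpaceDefs
import Pool.Agent.H87.Lib.Helper332.SAD.P_left_closure_countable
import Pool.Agent.H87.Lib.Helper332.SAD.P_no_free
import Pool.Agent.H87.Lib.Helper332.SAD.P_tight_of_no_free

set_option autoImplicit false

namespace Pool.Agent.Helper332.SADSpace

open Cardinal Set Topology


theorem closure_le (K : Type) [TopologicalSpace K] [CompactSpace K] [T2Space K]
    (hK : LeftSeparated K) (A : Set K) (hA : #A ≤ ℵ₁) : #(closure A) ≤ 𝔠 := by
  have hsub : closure A ⊆ ⋃ s : ℕ → A, closure (Set.range fun n => (s n : K)) := by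
    intro p hp
    obtain ⟨T, hTA, hTc, hpT⟩ := tight_of_no_free K (no_free K hK) A p hp
    have hTn : T.Nonempty := by
      rw [Set.nonempty_iff_ne_empty]
      intro e
      rw [e, closure_empty] at hpT
      exact hpT
    obtain ⟨f, hf⟩ := hTc.exists_eq_range hTn
    rw [Set.mem_iUnion]
    refine ⟨fun n => ⟨f n, hTA (by rw [hf]; exact Set.mem_range_self n)⟩, ?_⟩
    rw [← hf]
    exact hpT
  calc #(closure A) ≤ #(⋃ s : ℕ → A, closure (Set.range fun n => (s n : K))) :=
        Cardinal.mk_le_mk_of_subset hsub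
    _ ≤ Cardinal.sum fun s : ℕ → A => #(closure (Set.range fun n => (s n : K))) :=
        Cardinal.mk_iUnion_le_sum_mk
    _ ≤ Cardinal.sum fun _ : ℕ → A => 𝔠 := by
        apply Cardinal.sum_le_sum
        intro s
        exact left_closure_countable K hK _ (Set.countable_range _)
    _ = #(ℕ → A) * 𝔠 := by rw [Cardinal.sum_const']
    _ ≤ 𝔠 * 𝔠 := by
        apply mul_le_mul_left
        have e : #(ℕ → A) = #A ^ ℵ₀ := by
          rw [← Cardinal.mk_nat, Cardinal.power_def]
        rw [e, ← Cardinal.continuum_power_aleph0]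
        exact Cardinal.power_le_power_right (hA.trans Cardinal.aleph_one_le_continuum)
    _ = 𝔠 := Cardinal.continuum_mul_self

end Pool.Agent.Helper332.SADSpace
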