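import Mathlib
import Pool.Agent.H87.Lib.Helper332.SAD.Basic

set_option autoImplicit false

namespace Pool.Agent.Helper332.SAD

open Cardinal Set


/-- a countable chain of countable conditions has a lower bound -/
theorem exists_lb {I : Type} (S : Set (KC I)) (hS : S.Countable) (hne : S.Nonempty)
    (hch : ∀ k ∈ S, ∀ k' ∈ S, KLe k k' ∨ KLe k' k) : ∃ k, ∀ k' ∈ S, KLe k k' := by
  classical
  obtain ⟨a, ha⟩ := exists_bound (KC.d '' S) (hS.image _)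
  have hD : {d : Om | ∀ k ∈ S, k.d ≤ d}.Nonempty :=
    ⟨a, fun k hk => (ha _ ⟨k, hk, rfl⟩).le⟩
  obtain ⟨d, hd, hmin⟩ : ∃ d : Om, (∀ k ∈ S, k.d ≤ d) ∧ ∀ b < d, ∃ k ∈ S, b < k.d := by
    refine ⟨wellFounded_lt.min _ hD, wellFounded_lt.min_mem _ hD, fun b hb => ?_⟩
    by_contra hcon
    push Not at hcon
    exact wellFounded_lt.not_lt_min _ (show b ∈ {d : Om | ∀ k ∈ S, k.d ≤ d} from hcon) hb
  have hval : ∀ (i : I) (b : Om) (h : ∃ k ∈ S, i ∈ k.F ∧ b < k.d), ∀ k ∈ S, i ∈ k.F → b < k.d →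
      (Classical.choose h).g i b = k.g i b := by
    intro i b h k hk hik hbk
    obtain ⟨h1, h2, h3⟩ := Classical.choose_spec h
    rcases hch k hk _ h1 with h4 | h4
    · exact (h4.2.2.1 i h2 b h3).symm
    · exact h4.2.2.1 i hik b hbk
  refine ⟨⟨d, ⋃ k ∈ S, k.F, hS.biUnion (fun k _ => k.hF),
    fun i b => if h : ∃ k ∈ S, i ∈ k.F ∧ b < k.d then (Classical.choose h).g i b else 0,
    fun i b hne0 => ?_⟩, fun k hk => ⟨hd k hk, ?_, ?_, ?_⟩⟩
  · by_cases h : ∃ k ∈ S, i ∈ k.F ∧ b < k.d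
    · obtain ⟨k, hk, hik, hbk⟩ := h
      exact ⟨Set.mem_biUnion hk hik, hbk.trans_le (hd k hk)⟩
    · exact absurd (dif_neg h) hne0
  · intro i hi
    exact Set.mem_biUnion hk hi
  · intro i hi b hb
    have h : ∃ k ∈ S, i ∈ k.F ∧ b < k.d := ⟨k, hk, hi, hb⟩
    show (if h : ∃ k ∈ S, i ∈ k.F ∧ b < k.d then (Classical.choose h).g i b else 0) = k.g i b
    rw [dif_pos h]
    exact hval i b h k hk hi hb
  · intro i hi j hj hij b hkb hbd
    obtain ⟨k', hk', hbk'⟩ := hmin b hbd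
    rcases hch k hk k' hk' with h4 | h4
    · exact absurd hbk' (not_lt.2 (h4.1.trans hkb))
    · have h1 : ∃ k ∈ S, i ∈ k.F ∧ b < k.d := ⟨k', hk', h4.2.1 hi, hbk'⟩
      have h2 : ∃ k ∈ S, j ∈ k.F ∧ b < k.d := ⟨k', hk', h4.2.1 hj, hbk'⟩
      show (if h : ∃ k ∈ S, i ∈ k.F ∧ b < k.d then (Classical.choose h).g i b else 0) ≠
        (if h : ∃ k ∈ S, j ∈ k.F ∧ b < k.d then (Classical.choose h).g j b else 0)
      rw [dif_pos h1, dif_pos h2, hval i b h1 k' hk' (h4.2.1 hi) hbk',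
        hval j b h2 k' hk' (h4.2.1 hj) hbk']
      exact h4.2.2.2 i hi j hj hij b hkb hbk'

end Pool.Agent.Helper332.SAD
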