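import Mathlib
import Pool.Agent.H87.Lib.Helper332.SAD.Basic

set_option autoImplicit false

namespace Pool.Agent.Helper332.SAD

open Cardinal Set


/-- Delta-system lemma for uncountable families of finite sets of bounded size. -/
theorem fp_ccc_delta_card {T I : Type*} (F : I → Finset T) (n : ℕ) :
    ∀ (J : Set I), ¬ J.Countable → (∀ i ∈ J, (F i).card ≤ n) →
      ∃ (J' : Set I) (R : Finset T), J' ⊆ J ∧ ¬ J'.Countable ∧
        (∀ i ∈ J', R ⊆ F i) ∧ ∀ i ∈ J', ∀ j ∈ J', i ≠ j → ∀ t ∈ F i, t ∈ F j → t ∈ R := by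
  classical
  induction n generalizing F with
  | zero =>
    intro J hJ hc
    refine ⟨J, ∅, le_refl _, hJ, by simp, ?_⟩
    intro i hi j _ _ t ht
    have := hc i hi
    simp at this
    rw [this] at ht
    simp at ht
  | succ n ih =>
    intro J hJ hc
    by_cases hex : ∃ t, ¬ {i ∈ J | t ∈ F i}.Countable
    · obtain ⟨t, ht⟩ := hex
      obtain ⟨J', R, h1, h2, h3, h4⟩ := ih (fun i => (F i).erase t) {i ∈ J | t ∈ F i} ht (by
        intro i hi
        have := hc i hi.1
        rw [Finset.card_erase_of_mem hi.2]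
        omega)
      refine ⟨J', insert t R, fun i hi => (h1 hi).1, h2, ?_, ?_⟩
      · intro i hi x hx
        rcases Finset.mem_insert.mp hx with rfl | hx
        · exact (h1 hi).2
        · exact Finset.mem_of_mem_erase (h3 i hi hx)
      · intro i hi j hj hij x hxi hxj
        by_cases hxt : x = t
        · subst hxt; exact Finset.mem_insert_self _ _
        · exact Finset.mem_insert_of_mem (h4 i hi j hj hij x (Finset.mem_erase.mpr ⟨hxt, hxi⟩)
            (Finset.mem_erase.mpr ⟨hxt, hxj⟩))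
    · push Not at hex
      -- maximal disjoint subfamily
      obtain ⟨J', hJ', hmax⟩ : ∃ J' : Set I, Maximal (fun J' : Set I => J' ⊆ J ∧ ∀ i ∈ J', ∀ j ∈ J', i ≠ j → Disjoint (F i) (F j)) J' := by
        apply zorn_subset
        intro c hc1 hc2
        refine ⟨⋃₀ c, ⟨?_, ?_⟩, ?_⟩
        · exact sUnion_subset fun s hs => (hc1 hs).1
        · rintro i ⟨s, hs, his⟩ j ⟨s', hs', hjs'⟩ hij
          rcases hc2.total hs hs' with h | h
          · exact (hc1 hs').2 i (h his) j hjs' hij
          · exact (hc1 hs).2 i his j (h hjs') hij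
        · intro s hs
          exact subset_sUnion_of_mem hs
      have hmax' := hmax
      refine ⟨J', ∅, hJ'.1, ?_, by simp, ?_⟩
      · intro hcount
        apply hJ
        -- J is covered by sets meeting F j, j ∈ J'
        have hcov : J ⊆ J' ∪ ⋃ j ∈ J', ⋃ t ∈ (F j : Set T), {i ∈ J | t ∈ F i} := by
          intro i hi
          by_contra hni
          simp only [mem_union, mem_iUnion, not_or, not_exists] at hni
          obtain ⟨hni1, hni2⟩ := hni
          have hins : insert i J' ⊆ J' := by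
            apply hmax (y := insert i J')
            · refine ⟨insert_subset hi hJ'.1, ?_⟩
              have key : ∀ j ∈ J', Disjoint (F i) (F j) := by
                intro j hj
                rw [Finset.disjoint_left]
                intro t ht1 ht2
                exact hni2 j hj t (by simpa using ht2) ⟨hi, ht1⟩
              rintro a (rfl | ha) b (rfl | hb) hab
              · exact absurd rfl hab
              · exact key b hb
              · exact (key a ha).symm
              · exact hJ'.2 a ha b hb hab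
            · exact subset_insert _ _
          exact hni1 (hins (mem_insert _ _))
        refine Countable.mono hcov (hcount.union ?_)
        refine hcount.biUnion fun j _ => ?_
        exact (Finset.countable_toSet _).biUnion fun t _ => hex t
      · intro i hi j hj hij t h1 h2
        exact absurd h2 (Finset.disjoint_left.mp (hJ'.2 i hi j hj hij) h1)

/-- Delta-system lemma for uncountable families of finite sets. -/
theorem fp_ccc_delta_system {T I : Type*} (F : I → Finset T) (J : Set I) (hJ : ¬ J.Countable) :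
      ∃ (J' : Set I) (R : Finset T), J' ⊆ J ∧ ¬ J'.Countable ∧
        (∀ i ∈ J', R ⊆ F i) ∧ ∀ i ∈ J', ∀ j ∈ J', i ≠ j → ∀ t ∈ F i, t ∈ F j → t ∈ R := by
  have : ∃ n : ℕ, ¬ {i ∈ J | (F i).card ≤ n}.Countable := by
    by_contra h
    push Not at h
    apply hJ
    refine Countable.mono ?_ (countable_iUnion h)
    intro i hi
    exact mem_iUnion.mpr ⟨(F i).card, hi, le_refl _⟩
  obtain ⟨n, hn⟩ := this
  obtain ⟨J', R, h1, h2, h3, h4⟩ := fp_ccc_delta_card F n _ hn (fun i hi => hi.2)
  exact ⟨J', R, fun i hi => (h1 hi).1, h2, h3, h4⟩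

/-- pigeonhole for uncountable sets -/
theorem fp_ccc_fiber {I C : Type*} [Countable C] (f : I → C) (J : Set I) (hJ : ¬ J.Countable) :
    ∃ c, ¬ {i ∈ J | f i = c}.Countable := by
  by_contra h
  push Not at h
  apply hJ
  refine Countable.mono ?_ (countable_iUnion h)
  intro i hi
  exact mem_iUnion.mpr ⟨f i, hi, rfl⟩

/-- the amalgamation of two finite conditions -/
theorem fp_ccc_amalg {I : Type} (g : I → Om → ℕ) (p q : FP I) (R : Finset I) (A0 : Finset Om)
    (hRE : ∀ i, i ∈ p.E → i ∈ q.E → i ∈ R) (hA0p : A0 ⊆ p.A) (hA0q : A0 ⊆ q.A)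
    (hAA : ∀ a, a ∈ p.A → a ∈ q.A → a ∈ A0)
    (hag : ∀ i ∈ R, ∀ a ∈ A0, p.s i a = q.s i a)
    (hp : ∀ i ∈ R, ∀ j ∈ R, i ≠ j → ∀ a ∈ p.A, a ∉ A0 → g i a ≠ g j a)
    (hq : ∀ i ∈ R, ∀ j ∈ R, i ≠ j → ∀ a ∈ q.A, a ∉ A0 → g i a ≠ g j a) :
    ∃ t : FP I, (∀ i, i ∈ t.E ↔ i ∈ p.E ∨ i ∈ q.E) ∧
      (∀ a, a ∈ t.A ↔ a ∈ p.A ∨ a ∈ q.A) ∧ FLe g t p ∧ FLe g t q := by
  classical
  obtain ⟨code, hcode⟩ := Set.countable_iff_exists_injOn.mp (p.E ∪ q.E).finite_toSet.countable
  set M : ℕ := 1 + ∑ i ∈ p.E ∪ q.E, ∑ a ∈ p.A ∪ q.A, (p.s i a + q.s i a) with hM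
  have hMb : ∀ i ∈ p.E ∪ q.E, ∀ a ∈ p.A ∪ q.A, p.s i a + q.s i a < M := by
    intro i hi a ha
    have h1 : p.s i a + q.s i a ≤ ∑ a ∈ p.A ∪ q.A, (p.s i a + q.s i a) :=
      Finset.single_le_sum (f := fun a => p.s i a + q.s i a) (fun _ _ => Nat.zero_le _) ha
    have h2 : ∑ a ∈ p.A ∪ q.A, (p.s i a + q.s i a) ≤
        ∑ i ∈ p.E ∪ q.E, ∑ a ∈ p.A ∪ q.A, (p.s i a + q.s i a) :=
      Finset.single_le_sum (f := fun i => ∑ a ∈ p.A ∪ q.A, (p.s i a + q.s i a))
        (fun _ _ => Nat.zero_le _) hi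
    omega
  let ts : I → Om → ℕ := fun i a =>
    if i ∈ p.E ∧ a ∈ p.A then p.s i a
    else if i ∈ q.E ∧ a ∈ q.A then q.s i a
    else if i ∈ p.E ∪ q.E ∧ a ∈ p.A ∪ q.A then M + code i else 0
  have hts : ∀ i a, ts i a ≠ 0 → i ∈ p.E ∪ q.E ∧ a ∈ p.A ∪ q.A := by
    intro i a h
    simp only [ts] at h
    split_ifs at h with h1 h2 h3
    · exact ⟨Finset.mem_union_left _ h1.1, Finset.mem_union_left _ h1.2⟩
    · exact ⟨Finset.mem_union_right _ h2.1, Finset.mem_union_right _ h2.2⟩
    · exact h3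
    · exact absurd rfl h
  refine ⟨⟨p.E ∪ q.E, p.A ∪ q.A, ts, hts⟩, fun i => Finset.mem_union, fun a => Finset.mem_union, ?_, ?_⟩
  · refine ⟨Finset.subset_union_left, Finset.subset_union_left, ?_, ?_⟩
    · intro i hi a ha
      simp only [ts, hi, ha, and_self, if_true]
    · intro i hi j hj hij a ha ha' hgij
      have haq : a ∈ q.A := (Finset.mem_union.mp ha).resolve_left ha'
      have haA0 : a ∉ A0 := fun h => ha' (hA0p h)
      have hval : ∀ k ∈ p.E, ts k a = if k ∈ q.E then q.s k a else M + code k := by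
        intro k hk
        simp only [ts, ha', and_false, if_false, haq, and_true]
        split_ifs with h1 h2 h3
        · rfl
        · rfl
        · exact absurd ⟨Finset.mem_union_left _ hk, ha⟩ h2
      show ts i a ≠ ts j a
      rw [hval i hi, hval j hj]
      by_cases hiq : i ∈ q.E
      · by_cases hjq : j ∈ q.E
        · exact absurd hgij (hq i (hRE i hi hiq) j (hRE j hj hjq) hij a haq haA0)
        · rw [if_pos hiq, if_neg hjq]
          have := hMb i (Finset.mem_union_left _ hi) a ha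
          omega
      · by_cases hjq : j ∈ q.E
        · rw [if_neg hiq, if_pos hjq]
          have := hMb j (Finset.mem_union_left _ hj) a ha
          omega
        · rw [if_neg hiq, if_neg hjq]
          intro h
          apply hij
          apply hcode (Finset.mem_coe.mpr (Finset.mem_union_left _ hi))
            (Finset.mem_coe.mpr (Finset.mem_union_left _ hj))
          omega
  · refine ⟨Finset.subset_union_right, Finset.subset_union_right, ?_, ?_⟩
    · intro i hi a ha
      simp only [ts]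
      by_cases h1 : i ∈ p.E ∧ a ∈ p.A
      · rw [if_pos h1]
        exact hag i (hRE i h1.1 hi) a (hAA a h1.2 ha)
      · rw [if_neg h1, if_pos ⟨hi, ha⟩]
    · intro i hi j hj hij a ha ha' hgij
      have hap : a ∈ p.A := (Finset.mem_union.mp ha).resolve_right ha'
      have haA0 : a ∉ A0 := fun h => ha' (hA0q h)
      have hval : ∀ k ∈ q.E, ts k a = if k ∈ p.E then p.s k a else M + code k := by
        intro k hk
        simp only [ts, ha', and_false, if_false, hap, and_true]
        split_ifs with h1 h2 h3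
        · rfl
        · rfl
        · exact absurd ⟨Finset.mem_union_right _ hk, ha⟩ h2
      show ts i a ≠ ts j a
      rw [hval i hi, hval j hj]
      by_cases hip : i ∈ p.E
      · by_cases hjp : j ∈ p.E
        · exact absurd hgij (hp i (hRE i hip hi) j (hRE j hjp hj) hij a hap haA0)
        · rw [if_pos hip, if_neg hjp]
          have := hMb i (Finset.mem_union_right _ hi) a ha
          omega
      · by_cases hjp : j ∈ p.E
        · rw [if_neg hip, if_pos hjp]
          have := hMb j (Finset.mem_union_right _ hj) a ha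
          omega
        · rw [if_neg hip, if_neg hjp]
          intro h
          apply hij
          apply hcode (Finset.mem_coe.mpr (Finset.mem_union_right _ hi))
            (Finset.mem_coe.mpr (Finset.mem_union_right _ hj))
          omega

/-- the finite conditions have the countable chain condition, as soon as the given functions
`g i` pairwise agree only countably often -/
theorem fp_ccc {I : Type} (g : I → Om → ℕ) (F : Set I)
    (hg : ∀ i ∈ F, ∀ j ∈ F, i ≠ j → {a | g i a = g j a}.Countable)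
    (s : Om → FP I) (hs : ∀ x, ∀ i ∈ (s x).E, i ∈ F) :
    ∃ x y, x < y ∧ ∃ t : FP I, (∀ i, i ∈ t.E ↔ i ∈ (s x).E ∨ i ∈ (s y).E) ∧
      (∀ a, a ∈ t.A ↔ a ∈ (s x).A ∨ a ∈ (s y).A) ∧ FLe g t (s x) ∧ FLe g t (s y) := by
  classical
  have hunc : ¬ (univ : Set Om).Countable := by
    intro h
    rw [Set.countable_univ_iff, ← Cardinal.mk_le_aleph0_iff, mk_Om] at h
    exact absurd Cardinal.aleph0_lt_aleph_one (not_lt.mpr h)
  obtain ⟨J1, R, h11, h12, h13, h14⟩ := fp_ccc_delta_system (fun x => (s x).E) univ hunc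
  obtain ⟨J2, A0, h21, h22, h23, h24⟩ := fp_ccc_delta_system (fun x => (s x).A) J1 h12
  obtain ⟨c, hc⟩ := fp_ccc_fiber (C := (R × A0 → ℕ))
    (fun x => fun p : R × A0 => (s x).s p.1 p.2) J2 h22
  set J3 := {x ∈ J2 | (fun p : R × A0 => (s x).s p.1 p.2) = c} with hJ3
  have hJ3ne : J3.Nonempty := by
    by_contra h
    rw [Set.not_nonempty_iff_eq_empty] at h
    exact hc (h ▸ Set.countable_empty)
  have hRF : ∀ i ∈ R, i ∈ F := by
    obtain ⟨x, hx⟩ := hJ3ne
    intro i hi
    exact hs x i (h13 x (h21 hx.1) hi)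
  set Z : Set Om := ⋃ i ∈ R, ⋃ j ∈ R, {a | i ≠ j ∧ g i a = g j a} with hZ
  have hZc : Z.Countable := by
    refine R.countable_toSet.biUnion fun i hi => ?_
    refine R.countable_toSet.biUnion fun j hj => ?_
    by_cases hij : i = j
    · refine Set.Countable.mono ?_ Set.countable_empty
      rintro a ⟨h, _⟩
      exact h hij
    · exact (hg i (hRF i hi) j (hRF j hj) hij).mono (fun a ha => ha.2)
  set B : Set Om := ⋃ a ∈ Z, {x ∈ J3 | a ∈ (s x).A ∧ a ∉ A0} with hB
  have hBc : B.Countable := by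
    refine hZc.biUnion fun a _ => ?_
    apply Set.Subsingleton.countable
    intro x hx y hy
    by_contra hxy
    exact hx.2.2 (h24 x hx.1.1 y hy.1.1 hxy a hx.2.1 hy.2.1)
  have hJ4 : ¬ (J3 \ B).Countable := by
    intro h
    apply hc
    refine (h.union hBc).mono ?_
    intro x hx
    by_cases hxB : x ∈ B
    · exact Or.inr hxB
    · exact Or.inl ⟨hx, hxB⟩
  have hmain : ∀ x ∈ J3 \ B, ∀ y ∈ J3 \ B, x < y →
      ∃ x y, x < y ∧ ∃ t : FP I, (∀ i, i ∈ t.E ↔ i ∈ (s x).E ∨ i ∈ (s y).E) ∧
      (∀ a, a ∈ t.A ↔ a ∈ (s x).A ∨ a ∈ (s y).A) ∧ FLe g t (s x) ∧ FLe g t (s y) := by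
    intro x hx y hy hxy
    have hZprop : ∀ z ∈ J3 \ B, ∀ i ∈ R, ∀ j ∈ R, i ≠ j → ∀ a ∈ (s z).A, a ∉ A0 → g i a ≠ g j a := by
      intro z hz i hi j hj hij a ha ha0 hgij
      apply hz.2
      rw [hB, Set.mem_iUnion₂]
      refine ⟨a, ?_, hz.1, ha, ha0⟩
      rw [hZ, Set.mem_iUnion₂]
      refine ⟨i, hi, ?_⟩
      rw [Set.mem_iUnion₂]
      exact ⟨j, hj, hij, hgij⟩
    refine ⟨x, y, hxy, fp_ccc_amalg g (s x) (s y) R A0 ?_ (h23 x hx.1.1) (h23 y hy.1.1) ?_ ?_
      (hZprop x hx) (hZprop y hy)⟩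
    · intro i hi1 hi2
      exact h14 x (h21 hx.1.1) y (h21 hy.1.1) hxy.ne i hi1 hi2
    · intro a ha1 ha2
      exact h24 x hx.1.1 y hy.1.1 hxy.ne a ha1 ha2
    · intro i hi a ha
      have e1 := congrFun hx.1.2 (⟨i, hi⟩, ⟨a, ha⟩)
      have e2 := congrFun hy.1.2 (⟨i, hi⟩, ⟨a, ha⟩)
      exact e1.trans e2.symm
  have hnt : (J3 \ B).Nontrivial := by
    rw [← Set.not_subsingleton_iff]
    intro h
    exact hJ4 h.countable
  obtain ⟨x, hx, y, hy, hxy⟩ := hnt
  rcases lt_or_gt_of_ne hxy with h | h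
  · exact hmain x hx y hy h
  · exact hmain y hy x hx h

end Pool.Agent.Helper332.SAD
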