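import Mathlib
import Pool.Agent.H87.Lib.Helper332.SAD.Basic

set_option autoImplicit false

namespace Pool.Agent.Helper332.SAD

open Cardinal Set


/-- two conditions with the same data on the common part are compatible -/
theorem glue781 {I : Type} (q q' : Cond I) (hd : q.k.d = q'.k.d) (hA : q.s.A = q'.s.A)
    (hag : ∀ i ∈ q.k.F, i ∈ q'.k.F → ∀ b, q.k.g i b = q'.k.g i b ∧ q.s.s i b = q'.s.s i b) :
    ∃ r : Cond I, r ≤ q ∧ r ≤ q' := by
  classical
  have hg1 : ∀ i a, (if i ∈ q.k.F then q.k.g i a else q'.k.g i a) ≠ 0 →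
      i ∈ q.k.F ∪ q'.k.F ∧ a < q.k.d := by
    intro i a h
    by_cases hi : i ∈ q.k.F
    · rw [if_pos hi] at h
      exact ⟨Or.inl hi, (q.k.hg i a h).2⟩
    · rw [if_neg hi] at h
      have := q'.k.hg i a h
      exact ⟨Or.inr this.1, hd ▸ this.2⟩
  have hs1 : ∀ i a, (if i ∈ q.k.F then q.s.s i a else q'.s.s i a) ≠ 0 →
      i ∈ q.s.E ∪ q'.s.E ∧ a ∈ q.s.A := by
    intro i a h
    by_cases hi : i ∈ q.k.F
    · rw [if_pos hi] at h
      exact ⟨Finset.mem_union_left _ (q.s.hs i a h).1, (q.s.hs i a h).2⟩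
    · rw [if_neg hi] at h
      have := q'.s.hs i a h
      exact ⟨Finset.mem_union_right _ this.1, hA ▸ this.2⟩
  let r : Cond I :=
    { k := ⟨q.k.d, q.k.F ∪ q'.k.F, q.k.hF.union q'.k.hF,
        fun i a => if i ∈ q.k.F then q.k.g i a else q'.k.g i a, hg1⟩
      s := ⟨q.s.E ∪ q'.s.E, q.s.A, fun i a => if i ∈ q.k.F then q.s.s i a else q'.s.s i a, hs1⟩
      hE := by
        intro i hi
        rcases Finset.mem_union.1 hi with h | h
        · exact Or.inl (q.hE i h)
        · exact Or.inr (q'.hE i h)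
      hA := q.hA }
  refine ⟨r, ?_, ?_⟩
  · rw [Cond.le_def]
    refine ⟨⟨le_rfl, subset_union_left, ?_, ?_⟩, Finset.subset_union_left, subset_rfl, ?_, ?_⟩
    · intro i hi a _
      exact if_pos hi
    · intro i _ j _ _ a h1 h2
      exact absurd h2 (not_lt.2 h1)
    · intro i hi a _
      exact if_pos (q.hE i hi)
    · intro i _ j _ _ a h1 h2
      exact absurd h1 h2
  · rw [Cond.le_def]
    refine ⟨⟨hd.symm.le, subset_union_right, ?_, ?_⟩, Finset.subset_union_right, hA.symm.subset, ?_, ?_⟩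
    · intro i hi a _
      show (if i ∈ q.k.F then q.k.g i a else q'.k.g i a) = q'.k.g i a
      split_ifs with h
      · exact (hag i h hi a).1
      · rfl
    · intro i _ j _ _ a h1 h2
      exact absurd h2 (not_lt.2 (hd ▸ h1))
    · intro i hi a _
      show (if i ∈ q.k.F then q.s.s i a else q'.s.s i a) = q'.s.s i a
      split_ifs with h
      · exact (hag i h (q'.hE i hi) a).2
      · rfl
    · intro i _ j _ _ a h1 h2
      exact absurd (hA ▸ h1) h2

abbrev T781 : Type := Om × Finset Om × (ℕ → ℕ → ℕ × ℕ)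

theorem mk_finset_Om781 : #(Finset Om) ≤ 𝔠 := by
  have hinf : Infinite Om := by
    rw [Cardinal.infinite_iff, mk_Om]
    exact aleph0_le_aleph 1
  rw [Cardinal.mk_finset_of_infinite, mk_Om]
  exact aleph_one_le_continuum

theorem mk_T781 : #T781 ≤ 𝔠 := by
  have h1 : #Om ≤ 𝔠 := by rw [mk_Om]; exact aleph_one_le_continuum
  have h3 : #(ℕ → ℕ → ℕ × ℕ) ≤ 𝔠 := by
    have e1 : #(ℕ × ℕ) = ℵ₀ := by simp
    have e2 : #(ℕ → ℕ × ℕ) = 𝔠 := by
      rw [← Cardinal.power_def, e1, Cardinal.mk_nat, Cardinal.aleph0_power_aleph0]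
    have e3 : #(ℕ → ℕ → ℕ × ℕ) = 𝔠 := by
      rw [← Cardinal.power_def, e2, Cardinal.mk_nat, Cardinal.continuum_power_aleph0]
    rw [e3]
  rw [T781, Cardinal.mk_prod, Cardinal.mk_prod, lift_id, lift_id, lift_id, lift_id]
  calc #Om * (#(Finset Om) * #(ℕ → ℕ → ℕ × ℕ)) ≤ 𝔠 * (𝔠 * 𝔠) :=
        mul_le_mul' h1 (mul_le_mul' mk_finset_Om781 h3)
    _ = 𝔠 := by rw [continuum_mul_self, continuum_mul_self]

/-- the type of a condition over a sequence -/
def ty781 {I : Type} (ν : Om → ℕ → Om) (r : ℕ → I) (q : Cond I) : T781 :=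
  (q.k.d, q.s.A, fun n m => (q.k.g (r n) (ν q.k.d m), q.s.s (r n) (ν q.k.d m)))

theorem ty_agree781 {I : Type} (ν : Om → ℕ → Om) (hν : ∀ d, Iio d ⊆ range (ν d)) (r : ℕ → I) (q q' : Cond I)
    (h : ty781 ν r q = ty781 ν r q') (hr : ∀ i ∈ q.k.F, i ∈ q'.k.F → i ∈ range r) :
    ∃ p : Cond I, p ≤ q ∧ p ≤ q' := by
  have h1 : q.k.d = q'.k.d := congrArg (fun t => t.1) h
  have h2 : q.s.A = q'.s.A := congrArg (fun t => t.2.1) h
  have h3 := congrArg (fun t => t.2.2) h
  apply glue781 q q' h1 h2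
  intro i hi hi' b
  obtain ⟨n, hn⟩ := hr i hi hi'
  by_cases hb : b < q.k.d
  · obtain ⟨m, hm⟩ := hν q.k.d hb
    have h4 := congrFun (congrFun h3 n) m
    simp only [ty781, Prod.mk.injEq] at h4
    rw [← h1, hm, hn] at h4
    exact h4
  · have g1 : q.k.g i b = 0 := by
      by_contra hne
      exact hb (q.k.hg i b hne).2
    have g2 : q'.k.g i b = 0 := by
      by_contra hne
      exact hb (h1 ▸ (q'.k.hg i b hne).2)
    have s1 : q.s.s i b = 0 := by
      by_contra hne
      exact hb (q.hA b (q.s.hs i b hne).2)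
    have s2 : q'.s.s i b = 0 := by
      by_contra hne
      exact hb (h1 ▸ (q'.hA b (q'.s.hs i b hne).2))
    rw [g1, g2, s1, s2]
    exact ⟨rfl, rfl⟩

/-- arities -/
def ar781 : Option (T781 × ℕ) → Type
  | none => Empty
  | some _ => ℕ

theorem mk_W781 : #(WType ar781) ≤ 𝔠 := by
  apply WType.cardinalMk_le_of_le
  have hb : ∀ a : Option (T781 × ℕ), 𝔠 ^ #(ar781 a) ≤ 𝔠 := by
    intro a
    cases a with
    | none =>
      show 𝔠 ^ #Empty ≤ 𝔠
      rw [Cardinal.mk_eq_zero, power_zero]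
      exact nat_lt_continuum 1 |>.le |> (by simpa using ·)
    | some x =>
      show 𝔠 ^ #ℕ ≤ 𝔠
      rw [Cardinal.mk_nat, continuum_power_aleph0]
  have ho : #(Option (T781 × ℕ)) ≤ 𝔠 := by
    rw [Cardinal.mk_option, Cardinal.mk_prod, lift_id, lift_id, Cardinal.mk_nat]
    calc #T781 * ℵ₀ + 1 ≤ 𝔠 * 𝔠 + 𝔠 := by
          apply add_le_add (mul_le_mul' mk_T781 aleph0_le_continuum)
          exact nat_lt_continuum 1 |>.le |> (by simpa using ·)
      _ = 𝔠 := by rw [continuum_mul_self, continuum_add_self]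
  calc (Cardinal.sum fun a : Option (T781 × ℕ) => 𝔠 ^ #(ar781 a))
      ≤ Cardinal.sum fun _ : Option (T781 × ℕ) => 𝔠 := Cardinal.sum_le_sum _ _ hb
    _ = #(Option (T781 × ℕ)) * 𝔠 := Cardinal.sum_const' _ _
    _ ≤ 𝔠 * 𝔠 := mul_le_mul' ho le_rfl
    _ = 𝔠 := continuum_mul_self

/-- antichains have size at most the continuum -/
theorem antichain_le {I : Type} (A : Set (Cond I))
    (hA : ∀ p ∈ A, ∀ q ∈ A, p ≠ q → ¬ ∃ r : Cond I, r ≤ p ∧ r ≤ q) : #A ≤ 𝔠 := by
  classical
  rcases A.eq_empty_or_nonempty with rfl | ⟨q0, hq0⟩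
  · rw [Cardinal.mk_eq_zero]
    exact zero_le
  have hne : Nonempty Om := ⟨q0.k.d⟩
  rcases isEmpty_or_nonempty I with hI | hI
  · -- no indices
    have hinj : Function.Injective (fun q : A => ((q.1.k.d, q.1.s.A) : Om × Finset Om)) := by
      intro q q' h
      by_contra hqq
      apply hA q.1 q.2 q'.1 q'.2 (fun h => hqq (Subtype.ext h))
      apply glue781
      · exact congrArg Prod.fst h
      · exact congrArg Prod.snd h
      · intro i
        exact (hI.false i).elim
    refine (Cardinal.mk_le_of_injective hinj).trans ?_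
    rw [Cardinal.mk_prod, lift_id, lift_id]
    calc #Om * #(Finset Om) ≤ 𝔠 * 𝔠 := mul_le_mul' (by rw [mk_Om]; exact aleph_one_le_continuum) mk_finset_Om781
      _ = 𝔠 := continuum_mul_self
  · have hν' : ∀ d : Om, ∃ f : ℕ → Om, Iio d ⊆ range f := fun d =>
      countable_iff_exists_subset_range.1 (countable_Iio d)
    choose ν hν using hν'
    have hen' : ∀ q : Cond I, ∃ f : ℕ → I, q.k.F ⊆ range f := fun q =>
      countable_iff_exists_subset_range.1 q.k.hF
    choose en hen using hen'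
    let pick : (ℕ → I) → T781 → Cond I := fun r τ =>
      if h : ∃ q ∈ A, ty781 ν r q = τ then h.choose else q0
    have hpick : ∀ r τ, (∃ q ∈ A, ty781 ν r q = τ) → pick r τ ∈ A ∧ ty781 ν r (pick r τ) = τ := by
      intro r τ h
      have : pick r τ = h.choose := dif_pos h
      rw [this]
      exact h.choose_spec
    obtain ⟨i0⟩ := hI
    let ev : WType ar781 → I := WType.elim I (fun x => match x with
      | ⟨none, _⟩ => i0
      | ⟨some (τ, m), w⟩ => en (pick w τ) m)
    have hev : ∀ (τ : T781) (m : ℕ) (w : ℕ → WType ar781),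
        ev (WType.mk (some (τ, m)) w) = en (pick (fun n => ev (w n)) τ) m := by
      intro τ m w
      rfl
    let w0 : WType ar781 := WType.mk none (fun x => Empty.elim x)
    have hsurj : ∀ a ∈ A, ∃ x : (ℕ → WType ar781) × T781, pick (fun n => ev (x.1 n)) x.2 = a := by
      intro a ha
      have hc : (a.k.F ∩ range ev).Countable := a.k.hF.mono inter_subset_left
      have hw : ∃ w : ℕ → WType ar781, a.k.F ∩ range ev ⊆ range (fun n => ev (w n)) := by
        have hne' : Nonempty (range ev) := ⟨⟨_, w0, rfl⟩⟩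
        obtain ⟨f, hf⟩ := countable_iff_exists_subset_range.1 (hc.preimage (f := (Subtype.val : range ev → I)) Subtype.val_injective)
        refine ⟨fun n => (f n).2.choose, ?_⟩
        intro i hi
        obtain ⟨n, hn⟩ := hf (show (⟨i, hi.2⟩ : range ev) ∈ _ from hi)
        refine ⟨n, ?_⟩
        show ev (f n).2.choose = i
        rw [(f n).2.choose_spec, hn]
      obtain ⟨w, hw⟩ := hw
      refine ⟨(w, ty781 ν (fun n => ev (w n)) a), ?_⟩
      have hp := hpick (fun n => ev (w n)) (ty781 ν (fun n => ev (w n)) a) ⟨a, ha, rfl⟩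
      by_contra hne2
      apply hA _ hp.1 a ha hne2
      apply ty_agree781 ν hν (fun n => ev (w n)) _ _ hp.2
      intro i hi hia
      apply hw
      refine ⟨hia, ?_⟩
      obtain ⟨m, hm⟩ := hen _ hi
      exact ⟨WType.mk (some (_, m)) w, by rw [hev]; exact hm⟩
    have hne3 : Nonempty ((ℕ → WType ar781) × T781) := ⟨(fun _ => w0, ty781 ν (fun _ => i0) q0)⟩
    choose! x hx using hsurj
    have hinj : Function.Injective (fun a : A => x a.1) := by
      intro a b h
      have h1 := hx a.1 a.2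
      have h2 := hx b.1 b.2
      simp only at h
      rw [h] at h1
      exact Subtype.ext (h1.symm.trans h2)
    refine (Cardinal.mk_le_of_injective hinj).trans ?_
    rw [Cardinal.mk_prod, lift_id, lift_id, ← Cardinal.power_def, Cardinal.mk_nat]
    calc #(WType ar781) ^ ℵ₀ * #T781 ≤ 𝔠 ^ ℵ₀ * 𝔠 :=
          mul_le_mul' (Cardinal.power_le_power_right mk_W781) mk_T781
      _ = 𝔠 := by rw [continuum_power_aleph0, continuum_mul_self]

end Pool.Agent.Helper332.SAD
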