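import Mathlib
import Pool.Agent.H87.Lib.Helper332.SAD.Basic

set_option autoImplicit false

namespace Pool.Agent.Helper332.SAD

open Cardinal Set


theorem mk_Cond_le {I : Type} (hI : #I ^ 𝔠 = #I) (hc : 𝔠 ≤ #I) : #(Cond I) ≤ #I := by
  have hinf : ℵ₀ ≤ #I := Cardinal.aleph0_le_continuum.trans hc
  have hOm : #Om ≤ #I := by rw [mk_Om]; exact Cardinal.aleph_one_le_continuum.trans hc
  have hX : #(I × Om × ℕ) ≤ #I := by
    rw [Cardinal.mk_prod, Cardinal.mk_prod, Cardinal.lift_id, Cardinal.lift_id, Cardinal.lift_id,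
      Cardinal.lift_id]
    calc #I * (#Om * #ℕ) ≤ #I * (#I * #I) := by
          gcongr
          rw [Cardinal.mk_nat]; exact hinf
      _ = #I := by rw [Cardinal.mul_eq_self hinf, Cardinal.mul_eq_self hinf]
  have hCS : ∀ X : Type, #X ≤ #I → #{t : Set X // #t ≤ ℵ₀} ≤ #I := by
    intro X hX
    calc #{t : Set X // #t ≤ ℵ₀} ≤ max #X ℵ₀ ^ ℵ₀ := Cardinal.mk_bounded_set_le X ℵ₀
      _ ≤ #I ^ ℵ₀ := Cardinal.power_le_power_right (max_le hX hinf)
      _ ≤ #I ^ 𝔠 := Cardinal.power_le_power_left (by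
          rintro h; rw [h] at hinf; exact absurd hinf (not_le.2 Cardinal.aleph0_pos))
          Cardinal.aleph0_le_continuum
      _ = #I := hI
  have hmul : ∀ {X Y : Type}, #X ≤ #I → #Y ≤ #I → #(X × Y) ≤ #I := by
    intro X Y h1 h2
    rw [Cardinal.mk_prod, Cardinal.lift_id, Cardinal.lift_id]
    calc #X * #Y ≤ #I * #I := by gcongr
      _ = #I := Cardinal.mul_eq_self hinf
  have hle : ∀ {X : Type} (t : Set X), t.Countable → #t ≤ ℵ₀ := fun t ht =>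
    Cardinal.le_aleph0_iff_set_countable.2 ht
  have hG : ∀ q : Cond I, ({x : I × Om × ℕ | x.2.2 ≠ 0 ∧ q.k.g x.1 x.2.1 = x.2.2}).Countable := by
    intro q
    refine ((q.k.hF.prod ((countable_Iio q.k.d).prod (Set.countable_univ (α := ℕ)))).mono ?_)
    rintro ⟨i, a, n⟩ ⟨h1, h2⟩
    have := q.k.hg i a (by simpa using (h2.trans_ne h1))
    exact ⟨this.1, this.2, Set.mem_univ _⟩
  have hS : ∀ q : Cond I, ({x : I × Om × ℕ | x.2.2 ≠ 0 ∧ q.s.s x.1 x.2.1 = x.2.2}).Countable := by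
    intro q
    refine ((q.s.E.countable_toSet.prod ((q.s.A.countable_toSet).prod
      (Set.countable_univ (α := ℕ)))).mono ?_)
    rintro ⟨i, a, n⟩ ⟨h1, h2⟩
    have := q.s.hs i a (by simpa using (h2.trans_ne h1))
    exact ⟨this.1, this.2, Set.mem_univ _⟩
  have hgraph : ∀ g g' : I → Om → ℕ, {x : I × Om × ℕ | x.2.2 ≠ 0 ∧ g x.1 x.2.1 = x.2.2} =
      {x : I × Om × ℕ | x.2.2 ≠ 0 ∧ g' x.1 x.2.1 = x.2.2} → g = g' := by
    intro g g' h
    funext i a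
    have h1 := fun n => Set.ext_iff.1 h (i, a, n)
    simp only [Set.mem_ofPred_eq] at h1
    by_cases h0 : g i a = 0
    · by_cases h0' : g' i a = 0
      · rw [h0, h0']
      · exact ((h1 (g' i a)).2 ⟨h0', rfl⟩).2
    · exact ((h1 (g i a)).1 ⟨h0, rfl⟩).2.symm
  let f : Cond I → Om × {t : Set I // #t ≤ ℵ₀} × {t : Set (I × Om × ℕ) // #t ≤ ℵ₀} ×
      {t : Set I // #t ≤ ℵ₀} × {t : Set Om // #t ≤ ℵ₀} × {t : Set (I × Om × ℕ) // #t ≤ ℵ₀} :=
    fun q => (q.k.d, ⟨q.k.F, hle _ q.k.hF⟩, ⟨_, hle _ (hG q)⟩,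
      ⟨(q.s.E : Set I), hle _ q.s.E.countable_toSet⟩,
      ⟨(q.s.A : Set Om), hle _ q.s.A.countable_toSet⟩, ⟨_, hle _ (hS q)⟩)
  have hf : Function.Injective f := by
    intro q q' h
    simp only [f, Prod.mk.injEq, Subtype.mk.injEq, Finset.coe_inj] at h
    obtain ⟨h1, h2, h3, h4, h5, h6⟩ := h
    refine Cond.ext (KC.ext h1 h2 (hgraph _ _ h3)) (FP.ext h4 h5 (hgraph _ _ h6))
  refine (Cardinal.mk_le_of_injective hf).trans ?_
  exact hmul hOm (hmul (hCS _ le_rfl) (hmul (hCS _ hX) (hmul (hCS _ le_rfl)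
    (hmul (hCS _ hOm) (hCS _ hX)))))

end Pool.Agent.Helper332.SAD
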