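import Mathlib
import Pool.Agent.H87.Lib.Helper332.SAD.Basic
import Pool.Agent.H87.Lib.Helper332.SAD.P_antichain_le
import Pool.Agent.H87.Lib.Helper332.SAD.P_mk_Cond_le

set_option autoImplicit false

namespace Pool.Agent.Helper332.SAD

open Cardinal Set


theorem j11109_maxanti {I : Type} (D : Set (Cond I)) :
    ∃ T : Set (Cond I), T ⊆ D ∧ (∀ p ∈ T, ∀ q ∈ T, p ≠ q → ¬ ∃ r : Cond I, r ≤ p ∧ r ≤ q) ∧
      ∀ p ∈ D, ∃ s ∈ T, ∃ r : Cond I, r ≤ p ∧ r ≤ s := by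
  classical
  obtain ⟨T, hT⟩ := zorn_subset {A : Set (Cond I) | A ⊆ D ∧
      ∀ p ∈ A, ∀ q ∈ A, p ≠ q → ¬ ∃ r : Cond I, r ≤ p ∧ r ≤ q} (by
    intro c hc hch
    refine ⟨⋃₀ c, ⟨Set.sUnion_subset fun A hA => (hc hA).1, ?_⟩, fun s hs => Set.subset_sUnion_of_mem hs⟩
    rintro p ⟨A, hA, hp⟩ q ⟨B, hB, hq⟩ hpq
    rcases hch.total hA hB with h | h
    · exact (hc hB).2 p (h hp) q hq hpq
    · exact (hc hA).2 p hp q (h hq) hpq)
  refine ⟨T, hT.prop.1, hT.prop.2, fun p hp => ?_⟩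
  by_contra hcon
  push Not at hcon
  have h1 : insert p T ∈ {A : Set (Cond I) | A ⊆ D ∧
      ∀ p ∈ A, ∀ q ∈ A, p ≠ q → ¬ ∃ r : Cond I, r ≤ p ∧ r ≤ q} := by
    refine ⟨Set.insert_subset hp hT.prop.1, ?_⟩
    rintro x (rfl | hx) y (rfl | hy) hxy
    · exact absurd rfl hxy
    · rintro ⟨r, hr1, hr2⟩
      exact hcon y hy r hr1 hr2
    · rintro ⟨r, hr1, hr2⟩
      exact hcon x hx r hr2 hr1
    · exact hT.prop.2 x hx y hy hxy
  have h2 : p ∈ T := hT.le_of_ge h1 (Set.subset_insert p T) (Set.mem_insert p T)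
  exact hcon p h2 p le_rfl le_rfl

/-- every name of a subset of `ω₁` is equivalent to one of `#I` names -/
theorem nice_names {I : Type} (hI : #I ^ 𝔠 = #I) (hc : 𝔠 ≤ #I) :
    ∃ e : I → Om → Set (Cond I), ∀ S : Om → Set (Cond I),
      (∀ a, ∀ p ∈ S a, ∀ q ≤ p, q ∈ S a) →
      ∃ i, ∀ a, ∀ p, (∀ q ≤ p, ∃ r ≤ q, r ∈ S a) ↔ ∀ q ≤ p, ∃ r ≤ q, ∃ s ∈ e i a, r ≤ s := by
  classical
  -- the codes
  have hom : (ℵ₁ : Cardinal.{0}) ≤ 𝔠 := by
    rw [← Cardinal.succ_aleph0]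
    exact Order.succ_le_of_lt Cardinal.aleph0_lt_continuum
  have hal : (ℵ₀ : Cardinal.{0}) ≤ #I := Cardinal.aleph0_le_continuum.trans hc
  have hI0 : #I ≠ 0 := (Cardinal.aleph0_pos.trans_le hal).ne'
  have hcard : #(Om → {t : Set (Cond I) // #t ≤ 𝔠}) ≤ #I := by
    have h1 : #{t : Set (Cond I) // #t ≤ 𝔠} ≤ #I := by
      refine (Cardinal.mk_bounded_set_le (Cond I) 𝔠).trans ?_
      refine (Cardinal.power_le_power_right (max_le (mk_Cond_le hI hc) hal)).trans hI.le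
    rw [← Cardinal.power_def, mk_Om]
    refine (Cardinal.power_le_power_right h1).trans ?_
    exact (Cardinal.power_le_power_left hI0 hom).trans hI.le
  obtain ⟨φ⟩ := Cardinal.le_def _ _ |>.1 hcard
  haveI : Nonempty (Om → {t : Set (Cond I) // #t ≤ 𝔠}) := ⟨fun _ => ⟨∅, by simp⟩⟩
  refine ⟨fun i a => (Function.invFun φ i a).1, fun S hS => ?_⟩
  choose T hTD hTA hTM using fun a => j11109_maxanti (S a)
  refine ⟨φ fun a => ⟨T a, antichain_le _ (hTA a)⟩, fun a p => ?_⟩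
  simp only [Function.leftInverse_invFun φ.injective _]
  constructor
  · intro h q hq
    obtain ⟨r, hr, hrS⟩ := h q hq
    obtain ⟨s, hs, r', h1, h2⟩ := hTM a r hrS
    exact ⟨r', h1.trans hr, s, hs, h2⟩
  · intro h q hq
    obtain ⟨r, hr, s, hs, hrs⟩ := h q hq
    exact ⟨r, hr, hS a s (hTD a hs) r hrs⟩

end Pool.Agent.Helper332.SAD
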