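import Mathlib
import Pool.Agent.H87.Lib.Helper332.SAD.SpaceDefs

set_option autoImplicit false

namespace Pool.Agent.Helper332.SADSpace

open Cardinal Set Topology


theorem chi_continuous {B C : Type} (X : C → Set B) (hX : ∀ i j, i ≠ j → (X i ∩ X j).Finite)
    (i : C) : Continuous (chi X i) := by
  have hV : IsClopen (insert (Psi.pt X i) (Psi.base X '' X i) : Set (Psi X)) := by
    constructor
    · rw [← isOpen_compl_iff, psi_isOpen]
      refine ⟨fun j hj => ?_, fun _ => ⟨{i}, ?_, ?_⟩⟩
      · have hji : j ≠ i := by
          rintro rfl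
          exact hj (Set.mem_insert _ _)
        refine (hX j i hji).subset ?_
        rintro b ⟨hb, hb'⟩
        refine ⟨hb, ?_⟩
        rw [Set.mem_compl_iff, not_not] at hb'
        rcases hb' with hb' | ⟨b', hb1, hb2⟩
        · exact absurd hb' (psi_base_ne_pt X b i)
        · rw [psi_base_inj] at hb2
          exact hb2 ▸ hb1
      · intro j hj
        rw [Set.mem_compl_iff, not_not] at hj
        rcases hj with hj | ⟨b', hb1, hb2⟩
        · rw [psi_pt_inj] at hj
          simp [hj]
        · exact absurd hb2 (psi_base_ne_pt X b' j)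
      · refine Set.Finite.subset Set.finite_empty ?_
        rintro b ⟨hb, hb'⟩
        exfalso
        rw [Set.mem_compl_iff, not_not] at hb
        rcases hb with hb | ⟨b', hb1, hb2⟩
        · exact psi_base_ne_pt X b i hb
        · rw [psi_base_inj] at hb2
          exact hb' i (Finset.mem_singleton_self i) (hb2 ▸ hb1)
    · rw [psi_isOpen]
      refine ⟨fun j hj => ?_, fun h => ?_⟩
      · rcases hj with hj | ⟨b', hb1, hb2⟩
        · rw [psi_pt_inj] at hj
          subst hj
          refine Set.Finite.subset Set.finite_empty ?_
          rintro b ⟨hb, hb'⟩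
          exact hb' (Set.mem_insert_of_mem _ ⟨b, hb, rfl⟩)
        · exact absurd hb2 (psi_base_ne_pt X b' j)
      · exfalso
        rcases h with h | ⟨b', hb1, hb2⟩
        · exact psi_pt_ne_inf X i h.symm
        · exact psi_base_ne_inf X b' hb2
  unfold chi
  refine Continuous.indicator ?_ continuous_const
  intro a ha
  rw [hV.frontier_eq] at ha
  exact absurd ha (Set.notMem_empty a)

end Pool.Agent.Helper332.SADSpace
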