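import Mathlib
import Pool.Agent.H87.Lib.Helper332.SAD.SpaceDefs
import Pool.Agent.H87.Lib.Helper332.SAD.P_cont_pt

set_option autoImplicit false

namespace Pool.Agent.Helper332.SADSpace

open Cardinal Set Topology


theorem kc_chi {B C : Type} (X : C → Set B) (i : C) (b : B) :
    (b ∈ X i → chi X i (Psi.base X b) = 1) ∧ (b ∉ X i → chi X i (Psi.base X b) = 0) := by
  unfold chi
  refine ⟨fun h => ?_, fun h => ?_⟩
  · exact Set.indicator_of_mem (Set.mem_insert_of_mem _ (Set.mem_image_of_mem _ h)) _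
  · apply Set.indicator_of_notMem
    intro h'
    rcases h' with h' | ⟨b', hb', h'⟩
    · exact psi_base_ne_pt X b i h'
    · rw [psi_base_inj] at h'
      exact h (h' ▸ hb')

theorem kc_chi_congr {B C : Type} (X : C → Set B) (i j : C) (b : B) (h : b ∈ X i ↔ b ∈ X j) :
    chi X i (Psi.base X b) = chi X j (Psi.base X b) := by
  by_cases hb : b ∈ X i
  · rw [(kc_chi X i b).1 hb, (kc_chi X j b).1 (h.mp hb)]
  · rw [(kc_chi X i b).2 hb, (kc_chi X j b).2 (fun h' => hb (h.mpr h'))]

theorem kc_pre_fst (x : Cant) (n : ℕ) : (pre x n).1 = n := rfl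

theorem kc_pre_inj {x x' : Cant} {n : ℕ} (h : pre x n = pre x' n) : ∀ m < n, x m = x' m := by
  intro m hm
  have h2 : (Finset.range n).filter (fun m => x m = true) = (Finset.range n).filter (fun m => x' m = true) :=
    congrArg Prod.snd h
  have h3 := Finset.ext_iff.mp h2 m
  simp only [Finset.mem_filter, Finset.mem_range, hm, true_and] at h3
  exact Bool.eq_iff_iff.mpr h3

theorem kc_pre_congr {x x' : Cant} {n : ℕ} (h : ∀ m < n, x m = x' m) : pre x n = pre x' n := by
  unfold pre
  congr 1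
  apply Finset.filter_congr
  intro m hm
  rw [h m (Finset.mem_range.mp hm)]

theorem kc_pre_mono {x x' : Cant} {n n' : ℕ} (h : pre x n = pre x' n) (hn : n' ≤ n) :
    pre x n' = pre x' n' :=
  kc_pre_congr (fun m hm => kc_pre_inj h m (hm.trans_le hn))

theorem kc_mem_inl (f : Cant → Om → ℕ) (y : Cant → Om → Cant) (i : Cant) (d : DD) :
    (Sum.inl d : BB) ∈ XX f y i ↔ d = pre i d.1 := by
  constructor
  · rintro (⟨n, hn⟩ | ⟨a, n, hn⟩)
    · have h1 : d = pre i n := Sum.inl.inj hn
      have h2 : d.1 = n := by rw [h1]; rfl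
      rw [h2]; exact h1
    · cases hn
  · intro h
    exact Or.inl ⟨d.1, congrArg Sum.inl h⟩

theorem kc_mem_inr (f : Cant → Om → ℕ) (y : Cant → Om → Cant) (i : Cant) (a : Om) (m : ℕ) (d : DD) :
    (Sum.inr (a, m, d) : BB) ∈ XX f y i ↔ m = f i a ∧ d = pre (comb i (y i a)) d.1 := by
  constructor
  · rintro (⟨n, hn⟩ | ⟨a', n, hn⟩)
    · cases hn
    · have h0 := Sum.inr.inj hn
      have h1 : a = a' := congrArg Prod.fst h0
      subst h1
      have h2 : m = f i a := congrArg (fun p => p.2.1) h0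
      have h3 : d = pre (comb i (y i a)) n := congrArg (fun p => p.2.2) h0
      have h4 : d.1 = n := by rw [h3]; rfl
      refine ⟨h2, ?_⟩
      rw [h4]; exact h3
  · rintro ⟨h1, h2⟩
    refine Or.inr ⟨a, d.1, ?_⟩
    rw [← h2, ← h1]

/-- the traces of the functions `chi i` form a closed set of traces of continuous functions -/
theorem key_closed (f : Cant → Om → ℕ) (y : Cant → Om → Cant)
    (hf : ∀ i j, i ≠ j → {a | f i a = f j a}.Finite) (a : Om)
    (g : Psi (XX f y) → ℝ) (hg : Continuous g)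
    (hcl : (fun t => g (Psi.base (XX f y) (emb a t))) ∈
      closure (Set.range fun i => fun t => chi (XX f y) i (Psi.base (XX f y) (emb a t)))) :
    ∃ i, ∀ t, g (Psi.base (XX f y) (emb a t)) =
      chi (XX f y) i (Psi.base (XX f y) (emb a t)) := by
  obtain ⟨u, hu1, hu2⟩ := mem_closure_iff_seq_limit.mp hcl
  choose w hw using hu1
  obtain ⟨x, φ, hφ, hx⟩ := CompactSpace.tendsto_subseq w
  set v : ℕ → Cant := w ∘ φ with hv
  have hlim : ∀ t, Filter.Tendsto (fun k => chi (XX f y) (v k) (Psi.base (XX f y) (emb a t)))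
      Filter.atTop (𝓝 (g (Psi.base (XX f y) (emb a t)))) := by
    intro t
    have h1 := (tendsto_pi_nhds.mp hu2) t
    have h2 := h1.comp hφ.tendsto_atTop
    refine h2.congr ?_
    intro k
    show u (φ k) t = _
    rw [← hw (φ k)]
    rfl
  have hev : ∀ N : ℕ, ∀ᶠ k in Filter.atTop, ∀ m < N, v k m = x m := by
    intro N
    have h1 : ∀ m : ℕ, ∀ᶠ k in Filter.atTop, v k m = x m := by
      intro m
      have h2 := (tendsto_pi_nhds.mp hx) m
      have h3 : {x m} ∈ 𝓝 (x m) := (isOpen_discrete _).mem_nhds rfl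
      exact h2 h3
    have h4 := (Filter.eventually_all_finite (Set.finite_lt_nat N)).mpr (fun m _ => h1 m)
    filter_upwards [h4] with k hk m hm
    exact hk m hm
  have hpre : ∀ N : ℕ, ∀ᶠ k in Filter.atTop, pre (v k) N = pre x N := by
    intro N
    filter_upwards [hev N] with k hk
    exact kc_pre_congr hk
  have huniq : ∀ t, (∀ᶠ k in Filter.atTop, (emb a t ∈ XX f y (v k) ↔ emb a t ∈ XX f y x)) →
      g (Psi.base (XX f y) (emb a t)) = chi (XX f y) x (Psi.base (XX f y) (emb a t)) := by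
    intro t ht
    refine tendsto_nhds_unique (hlim t) ?_
    refine Filter.Tendsto.congr' ?_ tendsto_const_nhds
    filter_upwards [ht] with k hk
    exact (kc_chi_congr (XX f y) (v k) x _ hk).symm
  have hD : ∀ d : DD, g (Psi.base (XX f y) (emb a (Sum.inl d))) =
      chi (XX f y) x (Psi.base (XX f y) (emb a (Sum.inl d))) := by
    intro d
    apply huniq
    filter_upwards [hpre d.1] with k hk
    show (Sum.inl d : BB) ∈ _ ↔ (Sum.inl d : BB) ∈ _
    rw [kc_mem_inl, kc_mem_inl, hk]
  have hone : ∀ n, g (Psi.base (XX f y) (Sum.inl (pre x n))) = 1 := by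
    intro n
    have h1 := hD (pre x n)
    have h2 : (Sum.inl (pre x n) : BB) ∈ XX f y x := (kc_mem_inl f y x _).mpr rfl
    rw [show emb a (Sum.inl (pre x n)) = (Sum.inl (pre x n) : BB) from rfl] at h1
    rw [h1, (kc_chi (XX f y) x _).1 h2]
  have hpt : g (Psi.pt (XX f y) x) = 1 := by
    by_contra hne
    have hpos : 0 < |1 - g (Psi.pt (XX f y) x)| := abs_pos.mpr (sub_ne_zero.mpr (Ne.symm hne))
    have hfin := cont_pt (XX f y) g hg x _ hpos
    have hinj : Function.Injective (fun n : ℕ => (Sum.inl (pre x n) : BB)) := by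
      intro n n' h
      have h1 : pre x n = pre x n' := Sum.inl.inj h
      exact congrArg Prod.fst h1
    have hinf := Set.infinite_range_of_injective hinj
    apply hinf
    refine hfin.subset ?_
    rintro b ⟨n, rfl⟩
    refine ⟨(kc_mem_inl f y x _).mpr rfl, ?_⟩
    show _ ≤ |g (Psi.base (XX f y) (Sum.inl (pre x n))) - _|
    rw [hone n]
  have hfin := cont_pt (XX f y) g hg x (1 / 2) (by norm_num)
  rw [hpt] at hfin
  have hinj : Function.Injective (fun n : ℕ => (Sum.inr (a, f x a, pre (comb x (y x a)) n) : BB)) := by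
    intro n n' h
    have h1 := Sum.inr.inj h
    have h2 : pre (comb x (y x a)) n = pre (comb x (y x a)) n' := congrArg (fun p => p.2.2) h1
    exact congrArg Prod.fst h2
  have hfin2 := hfin.preimage (f := fun n : ℕ => (Sum.inr (a, f x a, pre (comb x (y x a)) n) : BB))
    hinj.injOn
  obtain ⟨n0, hn0⟩ := hfin2.bddAbove
  have hbig : ∀ n, n0 < n → 1 / 2 < g (Psi.base (XX f y) (Sum.inr (a, f x a, pre (comb x (y x a)) n))) := by
    intro n hn
    by_contra hle
    push Not at hle
    have hmem : n ∈ (fun n : ℕ => (Sum.inr (a, f x a, pre (comb x (y x a)) n) : BB)) ⁻¹'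
        {b | b ∈ XX f y x ∧ 1 / 2 ≤ |g (Psi.base (XX f y) b) - 1|} := by
      refine ⟨(kc_mem_inr f y x a _ _).mpr ⟨rfl, rfl⟩, ?_⟩
      rw [abs_sub_comm]
      refine le_trans ?_ (le_abs_self _)
      linarith
    exact absurd (hn0 hmem) (not_le.mpr hn)
  refine ⟨x, ?_⟩
  rintro (d | ⟨m, d⟩)
  · exact hD d
  · apply huniq
    have h1 := hlim (Sum.inr (f x a, pre (comb x (y x a)) (max (n0 + 1) d.1)))
    have h2 := hbig (max (n0 + 1) d.1) (lt_of_lt_of_le (Nat.lt_succ_self n0) (le_max_left _ _))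
    have h3 := h1.eventually (lt_mem_nhds h2)
    filter_upwards [h3] with k hk
    have h4 : (Sum.inr (a, f x a, pre (comb x (y x a)) (max (n0 + 1) d.1)) : BB) ∈ XX f y (v k) := by
      by_contra hnot
      have h5 := (kc_chi (XX f y) (v k) _).2 hnot
      have h6 : 1 / 2 < chi (XX f y) (v k) (Psi.base (XX f y)
        (Sum.inr (a, f x a, pre (comb x (y x a)) (max (n0 + 1) d.1)))) := hk
      rw [h5] at h6
      norm_num at h6
    rw [kc_mem_inr] at h4
    obtain ⟨h5, h6⟩ := h4
    rw [kc_pre_fst] at h6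
    have h7 := kc_pre_mono h6 (le_max_right (n0 + 1) d.1)
    show (Sum.inr (a, m, d) : BB) ∈ _ ↔ (Sum.inr (a, m, d) : BB) ∈ _
    rw [kc_mem_inr, kc_mem_inr, ← h5, ← h7]

end Pool.Agent.Helper332.SADSpace
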