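import Mathlib
import Pool.Agent.H87.Lib.Helper332.SAD.SpaceDefs
import Pool.Agent.H87.Lib.Helper332.SAD.P_chi_continuous
import Pool.Agent.H87.Lib.Helper332.SAD.P_XX_ad
import Pool.Agent.H87.Lib.Helper332.SAD.P_key_closed
import Pool.Agent.H87.Lib.Helper332.SAD.P_decode

set_option autoImplicit false

namespace Pool.Agent.Helper332.SADSpace

open Cardinal Set Topology


theorem key_chi_one {B C : Type} (X : C → Set B) (i : C) {b : B} (h : b ∈ X i) :
    chi X i (Psi.base X b) = 1 := by
  unfold chi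
  have hm : Psi.base X b ∈ insert (Psi.pt X i) (Psi.base X '' X i) := Or.inr ⟨b, h, rfl⟩
  rw [Set.indicator_of_mem hm]

theorem key_chi_zero {B C : Type} (X : C → Set B) (i : C) {b : B} (h : b ∉ X i) :
    chi X i (Psi.base X b) = 0 := by
  unfold chi
  rw [Set.indicator_of_notMem]
  rintro (h' | ⟨b', hb', h'⟩)
  · exact psi_base_ne_pt X b i h'
  · rw [psi_base_inj] at h'
    exact h (h' ▸ hb')

theorem key_iff {B C : Type} (X : C → Set B) (i j : C) {b : B}
    (h : |chi X i (Psi.base X b) - chi X j (Psi.base X b)| < 1 / 2) : b ∈ X j ↔ b ∈ X i := by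
  by_cases h1 : b ∈ X i
  · by_cases h2 : b ∈ X j
    · exact ⟨fun _ => h1, fun _ => h2⟩
    · rw [key_chi_one X i h1, key_chi_zero X j h2] at h
      norm_num at h
  · by_cases h2 : b ∈ X j
    · rw [key_chi_zero X i h1, key_chi_one X j h2] at h
      norm_num at h
    · exact ⟨fun h => absurd h h2, fun h => absurd h h1⟩

theorem key (f : Cant → Om → ℕ) (y : Cant → Om → Cant)
    (hf : ∀ i j, i ≠ j → {a | f i a = f j a}.Finite) (a : Om) (v : Cant → ℝ)
    (hv : Continuous v) (hv01 : ∀ x, v x ∈ Set.Icc (0 : ℝ) 1) :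
    ∃ ψ : {g : Psi (XX f y) → ℝ // Continuous g} → ℝ, Continuous ψ ∧
      (∀ g, ψ g ∈ Set.Icc (0 : ℝ) 1) ∧
      ∀ i (h : Continuous (chi (XX f y) i)), ψ ⟨chi (XX f y) i, h⟩ = v (y i a) := by
  classical
  let T : Type := DD ⊕ (ℕ × DD)
  let ρ : {g : Psi (XX f y) → ℝ // Continuous g} → (T → ℝ) :=
    fun g t => g.1 (Psi.base (XX f y) (emb a t))
  have hρ : Continuous ρ := continuous_pi fun t =>
    (continuous_apply (Psi.base (XX f y) (emb a t))).comp continuous_subtype_val
  let c : Cant → {g : Psi (XX f y) → ℝ // Continuous g} := fun i =>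
    ⟨chi (XX f y) i, chi_continuous _ (XX_ad f y hf) i⟩
  let M : Type := ↥(Set.range ρ)
  have hMn : NormalSpace ↥(Set.range ρ) := inferInstance
  let H : Set ↥(Set.range ρ) := {m | ∃ i, m.1 = ρ (c i)}
  have hH : IsClosed H := by
    refine isClosed_of_closure_subset fun m hm => ?_
    obtain ⟨g, hg⟩ := m.2
    have h1 : m.1 ∈ closure (Set.range fun i => ρ (c i)) := by
      refine map_mem_closure continuous_subtype_val hm ?_
      rintro m' ⟨i, hi⟩
      exact ⟨i, hi.symm⟩
    rw [← hg] at h1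
    obtain ⟨i, hi⟩ := key_closed f y hf a g.1 g.2 h1
    refine ⟨i, ?_⟩
    rw [← hg]
    funext t
    exact hi t
  have hch : ∀ m : H, ∃ i, m.1.1 = ρ (c i) := fun m => m.2
  choose J hJ using hch
  let h : H → ℝ := fun m => v (y (J m) a)
  have hval : ∀ (m : H) (i : Cant), m.1.1 = ρ (c i) → h m = v (y i a) := by
    intro m i hi
    have hz : |v (y (J m) a) - v (y i a)| ≤ 0 := by
      refine le_of_forall_pos_lt_add ?_ |>.trans le_rfl
      intro ε hε
      obtain ⟨F, hF⟩ := decode f y a v hv i ε hε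
      rw [zero_add]
      refine hF (J m) fun t _ => ?_
      have e : ρ (c (J m)) t = ρ (c i) t := by rw [← hJ m, hi]
      apply key_iff (XX f y) (J m) i
      have e' : chi (XX f y) (J m) (Psi.base (XX f y) (emb a t)) =
        chi (XX f y) i (Psi.base (XX f y) (emb a t)) := e
      rw [e', sub_self, abs_zero]
      norm_num
    have := abs_nonpos_iff.1 hz
    show v (y (J m) a) = v (y i a)
    linarith
  have hcont : Continuous h := by
    rw [continuous_iff_continuousAt]
    intro m0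
    rw [ContinuousAt, Metric.tendsto_nhds]
    intro ε hε
    obtain ⟨F, hF⟩ := decode f y a v hv (J m0) ε hε
    have hev : ∀ᶠ m : H in nhds m0, ∀ t ∈ F, |m.1.1 t - m0.1.1 t| < 1 / 2 := by
      rw [Filter.eventually_all_finset]
      intro t _
      have hc : Continuous fun m : H => m.1.1 t :=
        (continuous_apply t).comp (continuous_subtype_val.comp continuous_subtype_val)
      have := hc.continuousAt (x := m0)
      rw [ContinuousAt, Metric.tendsto_nhds] at this
      exact this (1 / 2) (by norm_num)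
    filter_upwards [hev] with m hm
    rw [Real.dist_eq]
    refine hF (J m) fun t ht => ?_
    apply key_iff (XX f y) (J m) (J m0)
    have := hm t ht
    rw [hJ m, hJ m0] at this
    exact this
  have hne : (Set.Icc (0 : ℝ) 1).Nonempty := ⟨0, by simp⟩
  obtain ⟨Ψ, hΨ1, hΨ2⟩ := ContinuousMap.exists_restrict_eq_forall_mem_of_closed
    (⟨h, hcont⟩ : C(H, ℝ)) (t := Set.Icc (0 : ℝ) 1)
    (fun m => hv01 _) hne hH
  refine ⟨fun g => Ψ ⟨ρ g, ⟨g, rfl⟩⟩, ?_, fun g => hΨ1 _, ?_⟩
  · exact Ψ.continuous.comp (hρ.subtype_mk _)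
  · intro i hi
    let m : H := ⟨⟨ρ (c i), ⟨c i, rfl⟩⟩, ⟨i, rfl⟩⟩
    have e1 : Ψ m.1 = h m := by
      have := congrArg (fun F : C(H, ℝ) => F m) hΨ2
      exact this
    show Ψ m.1 = v (y i a)
    rw [e1]
    exact hval m i rfl

end Pool.Agent.Helper332.SADSpace
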