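import Mathlib
import Pool.Agent.H87.Lib.Helper332.SAD.SpaceDefs

set_option autoImplicit false

namespace Pool.Agent.Helper332.SADSpace

open Cardinal Set Topology


theorem psi_compact {B C : Type} (X : C → Set B) : CompactSpace (Psi X) := by
  classical
  refine ⟨isCompact_of_finite_subcover ?_⟩
  intro ι U hUo hUc
  have hmem : ∀ x : Psi X, ∃ k, x ∈ U k := fun x => by
    have := hUc (mem_univ x)
    simpa using this
  choose k hk using hmem
  obtain ⟨J, hJ, hJfin⟩ := ((psi_isOpen X _).1 (hUo (k (Psi.inf X)))).2 (hk (Psi.inf X))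
  have hfin : ∀ i : C, {b | b ∈ X i ∧ Psi.base X b ∉ U (k (Psi.pt X i))}.Finite := fun i =>
    ((psi_isOpen X _).1 (hUo (k (Psi.pt X i)))).1 i (hk (Psi.pt X i))
  let T : Finset B := hJfin.toFinset ∪ J.biUnion fun i => (hfin i).toFinset
  refine ⟨{k (Psi.inf X)} ∪ (J.image fun i => k (Psi.pt X i)) ∪
    (T.image fun b => k (Psi.base X b)), ?_⟩
  intro x _
  simp only [mem_iUnion]
  by_cases hx : x ∈ U (k (Psi.inf X))
  · exact ⟨_, by simp, hx⟩
  rcases psi_cases X x with ⟨b, rfl⟩ | ⟨i, rfl⟩ | rfl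
  · by_cases hb : ∀ i ∈ J, b ∉ X i
    · have hbT : b ∈ T := by
        refine Finset.mem_union_left _ ?_
        rw [Set.Finite.mem_toFinset]
        exact ⟨hx, hb⟩
      exact ⟨k (Psi.base X b), Finset.mem_union_right _ (Finset.mem_image_of_mem _ hbT), hk _⟩
    · push Not at hb
      obtain ⟨i, hiJ, hbi⟩ := hb
      by_cases hbu : Psi.base X b ∈ U (k (Psi.pt X i))
      · exact ⟨k (Psi.pt X i), Finset.mem_union_left _ (Finset.mem_union_right _
          (Finset.mem_image_of_mem _ hiJ)), hbu⟩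
      · have hbT : b ∈ T := by
          refine Finset.mem_union_right _ (Finset.mem_biUnion.2 ⟨i, hiJ, ?_⟩)
          rw [Set.Finite.mem_toFinset]
          exact ⟨hbi, hbu⟩
        exact ⟨k (Psi.base X b), Finset.mem_union_right _ (Finset.mem_image_of_mem _ hbT), hk _⟩
  · exact ⟨k (Psi.pt X i), Finset.mem_union_left _ (Finset.mem_union_right _
      (Finset.mem_image_of_mem _ (hJ i hx))), hk _⟩
  · exact absurd (hk _) hx

end Pool.Agent.Helper332.SADSpace
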