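import Mathlib
import Pool.Agent.H87.Lib.Helper332.SAD.SpaceDefs

set_option autoImplicit false

namespace Pool.Agent.Helper332.SADSpace

open Cardinal Set Topology


/-- rank map for the well-ordering -/
def psi_left_f {B C : Type} : Pt B C → Unit ⊕ (C ⊕ B)
  | Pt.inf => Sum.inl ()
  | Pt.pt i => Sum.inr (Sum.inl i)
  | Pt.base b => Sum.inr (Sum.inr b)

theorem psi_left_f_inj {B C : Type} : Function.Injective (psi_left_f (B := B) (C := C)) := by
  intro x y h
  cases x <;> cases y <;> simp_all [psi_left_f]

/-- the well-ordering -/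
def psi_left_r {B C : Type} : Unit ⊕ (C ⊕ B) → Unit ⊕ (C ⊕ B) → Prop :=
  Sum.Lex WellOrderingRel (Sum.Lex WellOrderingRel WellOrderingRel)

theorem psi_left {B C : Type} (X : C → Set B) : LeftSeparated (Psi X) := by
  haveI : IsWellOrder (Unit ⊕ (C ⊕ B)) psi_left_r := by
    unfold psi_left_r; infer_instance
  let φ : Psi X → Unit ⊕ (C ⊕ B) := psi_left_f
  have hφ : Function.Injective φ := psi_left_f_inj
  refine ⟨fun x y => psi_left_r (φ x) (φ y), ?_, ?_⟩
  · exact (RelEmbedding.preimage (⟨φ, hφ⟩ : Psi X ↪ Unit ⊕ (C ⊕ B)) psi_left_r).isWellOrder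
  · intro x
    rw [← isOpen_compl_iff, psi_isOpen]
    have h1 : ∀ b : B, φ (Psi.base X b) = Sum.inr (Sum.inr b) := fun b => rfl
    have h2 : ∀ i : C, φ (Psi.pt X i) = Sum.inr (Sum.inl i) := fun b => rfl
    have h3 : φ (Psi.inf X) = Sum.inl () := rfl
    rcases psi_cases X x with ⟨b, rfl⟩ | ⟨i, rfl⟩ | rfl
    · refine ⟨fun i hi => ?_, fun hi => ?_⟩
      · exfalso
        apply hi
        show psi_left_r (φ (Psi.pt X i)) (φ (Psi.base X b))
        rw [h1, h2]
        exact Sum.Lex.inr (Sum.Lex.sep _ _)
      · exfalso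
        apply hi
        show psi_left_r (φ (Psi.inf X)) (φ (Psi.base X b))
        rw [h1, h3]
        exact Sum.Lex.sep _ _
    · refine ⟨fun j hj => ?_, fun hi => ?_⟩
      · convert Set.finite_empty
        ext b
        simp only [Set.mem_empty_iff_false, iff_false]
        rintro ⟨_, hb⟩
        apply hb
        intro hb'
        have hb'' : psi_left_r (φ (Psi.base X b)) (φ (Psi.pt X i)) := hb'
        rw [h1, h2] at hb''
        unfold psi_left_r at hb''
        simp at hb''
      · exfalso
        apply hi
        show psi_left_r (φ (Psi.inf X)) (φ (Psi.pt X i))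
        rw [h2, h3]
        exact Sum.Lex.sep _ _
    · have hno : ∀ y : Psi X, ¬ psi_left_r (φ y) (φ (Psi.inf X)) := by
        intro y hy
        rcases psi_cases X y with ⟨b, rfl⟩ | ⟨i, rfl⟩ | rfl
        · rw [h1, h3] at hy
          unfold psi_left_r at hy
          simp at hy
        · rw [h2, h3] at hy
          unfold psi_left_r at hy
          simp at hy
        · exact irrefl_of psi_left_r _ hy
      refine ⟨fun j hj => ?_, fun hi => ⟨∅, fun i hi' => ?_, ?_⟩⟩
      · convert Set.finite_empty
        ext b
        simp only [Set.mem_empty_iff_false, iff_false]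
        rintro ⟨_, hb⟩
        exact hb (hno _)
      · exact absurd (hno _) hi'
      · convert Set.finite_empty
        ext b
        simp only [Set.mem_empty_iff_false, iff_false]
        rintro ⟨hb, _⟩
        exact hb (hno _)

end Pool.Agent.Helper332.SADSpace
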