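import Mathlib
import Pool.Agent.H87.Lib.Helper332.SAD.SpaceDefs

set_option autoImplicit false

namespace Pool.Agent.Helper332.SADSpace

open Cardinal Set Topology


theorem psi_scattered {B C : Type} (X : C → Set B) : Scattered (Psi X) := by
  intro S hS
  by_cases h1 : ∃ b, Psi.base X b ∈ S
  · obtain ⟨b, hb⟩ := h1
    refine ⟨Psi.base X b, hb, {Psi.base X b}, ?_, ?_⟩
    · rw [psi_isOpen]
      refine ⟨fun i hi => ?_, fun hi => ?_⟩
      · exact absurd (Set.mem_singleton_iff.mp hi).symm (psi_base_ne_pt X b i)
      · exact absurd (Set.mem_singleton_iff.mp hi).symm (psi_base_ne_inf X b)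
    · ext x
      constructor
      · exact fun h => h.1
      · intro h
        rw [Set.mem_singleton_iff] at h
        subst h
        exact ⟨rfl, hb⟩
  · by_cases h2 : ∃ i, Psi.pt X i ∈ S
    · obtain ⟨i, hi⟩ := h2
      refine ⟨Psi.pt X i, hi, insert (Psi.pt X i) (Psi.base X '' X i), ?_, ?_⟩
      · rw [psi_isOpen]
        refine ⟨fun j hj => ?_, fun hj => ?_⟩
        · rcases hj with hj | ⟨b, _, hb⟩
          · have hji : j = i := (psi_pt_inj X j i).mp hj
            subst hji
            have : {b | b ∈ X j ∧ Psi.base X b ∉ insert (Psi.pt X j) (Psi.base X '' X j)} = ∅ := by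
              ext b
              simp only [Set.mem_setOf_eq, Set.mem_empty_iff_false, iff_false, not_and, not_not]
              intro hb
              exact Or.inr ⟨b, hb, rfl⟩
            rw [this]
            exact Set.finite_empty
          · exact absurd hb (psi_base_ne_pt X b j)
        · rcases hj with hj | ⟨b, _, hb⟩
          · exact absurd hj.symm (psi_pt_ne_inf X i)
          · exact absurd hb (psi_base_ne_inf X b)
      · ext x
        constructor
        · rintro ⟨hx | ⟨b, _, rfl⟩, hxS⟩
          · exact hx
          · exact absurd ⟨b, hxS⟩ h1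
        · intro hx
          rw [Set.mem_singleton_iff] at hx
          subst hx
          exact ⟨Or.inl rfl, hi⟩
    · obtain ⟨x, hx⟩ := hS
      have hall : ∀ y ∈ S, y = Psi.inf X := by
        intro y hy
        rcases psi_cases X y with ⟨b, rfl⟩ | ⟨i, rfl⟩ | h
        · exact absurd ⟨b, hy⟩ h1
        · exact absurd ⟨i, hy⟩ h2
        · exact h
      refine ⟨x, hx, Set.univ, isOpen_univ, ?_⟩
      ext y
      constructor
      · rintro ⟨_, hy⟩
        rw [Set.mem_singleton_iff, hall y hy, hall x hx]
      · intro hy
        rw [Set.mem_singleton_iff] at hy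
        subst hy
        exact ⟨trivial, hx⟩

end Pool.Agent.Helper332.SADSpace
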