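import Mathlib
import Pool.Agent.H87.Lib.Helper332.SAD.SpaceDefs

set_option autoImplicit false

namespace Pool.Agent.Helper332.SADSpace

open Cardinal Set Topology


/-- a compact Hausdorff space of size at most `ℵ₁` has a base of size at most `ℵ₁` -/
theorem small_weight (F : Type) [TopologicalSpace F] [CompactSpace F] [T2Space F]
    (hF : #F ≤ ℵ₁) : ∃ B : Set (Set F), TopologicalSpace.IsTopologicalBasis B ∧ #B ≤ ℵ₁ := by
  classical
  have hsep : ∀ p : F × F, ∃ UV : Set F × Set F, p.1 ≠ p.2 →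
      IsOpen UV.1 ∧ IsOpen UV.2 ∧ p.1 ∈ UV.1 ∧ p.2 ∈ UV.2 ∧ Disjoint UV.1 UV.2 := by
    intro p
    by_cases hp : p.1 ≠ p.2
    · obtain ⟨u, v, h1, h2, h3, h4, h5⟩ := t2_separation hp
      exact ⟨(u, v), fun _ => ⟨h1, h2, h3, h4, h5⟩⟩
    · exact ⟨(∅, ∅), fun h => absurd h hp⟩
  choose UV hUV using hsep
  set S : Set (Set F) := (Set.range fun p : {p : F × F // p.1 ≠ p.2} => (UV p.1).1) ∪
    Set.range fun p : {p : F × F // p.1 ≠ p.2} => (UV p.1).2 with hSdef
  have hS : ∀ s ∈ S, IsOpen s := by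
    rintro s (⟨p, rfl⟩ | ⟨p, rfl⟩)
    · exact (hUV p.1 p.2).1
    · exact (hUV p.1 p.2).2.1
  have hT2 : @T2Space F (TopologicalSpace.generateFrom S) := by
    refine @T2Space.mk F (TopologicalSpace.generateFrom S) ?_
    intro x y hxy
    have h := hUV (x, y) hxy
    refine ⟨(UV (x, y)).1, (UV (x, y)).2, ?_, ?_, h.2.2.1, h.2.2.2.1, h.2.2.2.2⟩
    · exact TopologicalSpace.isOpen_generateFrom_of_mem (Or.inl ⟨⟨(x, y), hxy⟩, rfl⟩)
    · exact TopologicalSpace.isOpen_generateFrom_of_mem (Or.inr ⟨⟨(x, y), hxy⟩, rfl⟩)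
  have hle : (inferInstance : TopologicalSpace F) ≤ TopologicalSpace.generateFrom S :=
    le_generateFrom hS
  have heq : (inferInstance : TopologicalSpace F) = TopologicalSpace.generateFrom S := by
    refine le_antisymm hle ?_
    have hcl : @IsClosedMap F F _ (TopologicalSpace.generateFrom S) id :=
      @Continuous.isClosedMap F F _ (TopologicalSpace.generateFrom S) _ hT2 id
        (continuous_id_iff_le.2 hle)
    intro U hU
    have h1 : IsClosed Uᶜ := (isOpen_compl_iff (s := Uᶜ)).1 (by rwa [compl_compl])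
    have h2 := hcl _ h1
    rw [Set.image_id] at h2
    have h3 := h2.isOpen_compl
    rwa [compl_compl] at h3
  refine ⟨_, TopologicalSpace.isTopologicalBasis_of_subbasis heq, ?_⟩
  have cS : #S ≤ ℵ₁ := by
    have h1 : #{p : F × F // p.1 ≠ p.2} ≤ ℵ₁ := by
      refine (mk_subtype_le _).trans ?_
      rw [mk_prod, lift_id]
      exact (mul_le_mul' hF hF).trans (mul_eq_self (aleph0_le_aleph 1)).le
    refine (mk_union_le _ _).trans ?_
    exact (add_le_add (mk_range_le.trans h1) (mk_range_le.trans h1)).trans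
      (add_eq_self (aleph0_le_aleph 1)).le
  have cFS : #(Finset S) ≤ ℵ₁ := by
    rcases finite_or_infinite S with h | h
    · exact (lt_aleph0_of_finite _).le.trans (aleph0_le_aleph 1)
    · rw [mk_finset_of_infinite]; exact cS
  refine le_trans (mk_le_mk_of_subset (t := Set.range fun t : Finset S =>
    ⋂₀ (Subtype.val '' (t : Set S))) ?_) (mk_range_le.trans cFS)
  rintro _ ⟨f, ⟨hf, hfS⟩, rfl⟩
  refine ⟨(hf.preimage (Subtype.val_injective.injOn) : (Subtype.val ⁻¹' f : Set S).Finite).toFinset,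
    ?_⟩
  show ⋂₀ (Subtype.val '' ((_ : Finset S) : Set S)) = ⋂₀ f
  rw [Set.Finite.coe_toFinset, Subtype.image_preimage_coe, Set.inter_eq_right.2 hfS]

end Pool.Agent.Helper332.SADSpace
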