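import Mathlib
import Pool.Agent.H87.Lib.Helper332.SAD.SpaceDefs

set_option autoImplicit false

namespace Pool.Agent.Helper332.SADSpace

open Cardinal Set Topology


theorem transfer (I : Type) (f : I → Om → ℕ) (e : I → Set Om)
    (hf : ∀ i j, i ≠ j → {a | f i a = f j a}.Finite) (he : Function.Surjective e) :
    ∃ (f' : Cant → Om → ℕ) (y : Cant → Om → Cant),
      (∀ i j, i ≠ j → {a | f' i a = f' j a}.Finite) ∧ Function.Surjective y := by
  have hOm : #Om = ℵ₁ := Cardinal.mk_ord_toType _
  have hinf : Infinite Om := by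
    rw [Cardinal.infinite_iff, hOm]; exact Cardinal.aleph0_le_aleph 1
  have hCant : #Cant = 𝔠 := by
    rw [← Cardinal.two_power_aleph0, ← Cardinal.mk_nat, ← Cardinal.mk_bool, Cardinal.power_def]
  have hI1 : #I ≤ 𝔠 := by
    let ι := Infinite.natEmbedding Om
    have hinj : Function.Injective (fun (i : I) (n : ℕ) => f i (ι n)) := by
      intro i j hij
      by_contra hne
      have h1 : (Set.range ι) ⊆ {a | f i a = f j a} := by
        rintro _ ⟨n, rfl⟩
        exact congrFun hij n
      exact Set.infinite_range_of_injective ι.injective ((hf i j hne).subset h1)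
    have h2 := Cardinal.mk_le_of_injective hinj
    have h3 : #(ℕ → ℕ) = 𝔠 := by
      rw [← Cardinal.power_def, Cardinal.mk_nat, Cardinal.aleph0_power_aleph0]
    rwa [h3] at h2
  have hI2 : 𝔠 ≤ #I := by
    have h1 := Cardinal.mk_le_of_surjective he
    rw [Cardinal.mk_set, hOm] at h1
    refine le_trans ?_ h1
    rw [← Cardinal.two_power_aleph0]
    exact Cardinal.power_le_power_left two_ne_zero (Cardinal.aleph0_le_aleph 1)
  have hIC : #Cant = #I := hCant.trans (le_antisymm hI2 hI1)
  obtain ⟨E⟩ := Cardinal.eq.1 hIC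
  have hOC : #(Set Om) = #(Om → Cant) := by
    rw [Cardinal.mk_set, ← Cardinal.power_def, hOm, hCant, ← Cardinal.two_power_aleph0,
      ← Cardinal.power_mul, Cardinal.mul_eq_right (Cardinal.aleph0_le_aleph 1)
        (Cardinal.aleph0_le_aleph 1) Cardinal.aleph0_ne_zero]
  obtain ⟨S⟩ := Cardinal.eq.1 hOC
  refine ⟨fun c => f (E c), fun c => S (e (E c)), ?_, ?_⟩
  · intro i j hij
    exact hf _ _ fun h => hij (E.injective h)
  · exact S.surjective.comp (he.comp E.surjective)

end Pool.Agent.Helper332.SADSpace
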