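import Mathlib
import Pool.Agent.H87.Lib.Helper937.Dya9
import Pool.Agent.H87.Lib.Helper332.SAD.P_psi_compact
import Pool.Agent.H87.Lib.Helper332.SAD.P_psi_t2
import Pool.Agent.H87.Lib.Helper332.SAD.P_psi_scattered
import Pool.Agent.H87.Lib.Helper332.SAD.P_psi_left
import Pool.Agent.H87.Lib.Helper332.SAD.P_chi_continuous
import Pool.Agent.H87.Lib.Helper332.SAD.P_XX_ad
import Pool.Agent.H87.Lib.Helper332.SAD.P_key
import Pool.Agent.H87.Lib.Helper332.SAD.P_cube_not_metrizable
import Pool.Agent.H87.Lib.Helper332.SAD.P_transfer
import Pool.Agent.H87.Lib.Helper332.SAD.P_closure_le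
import Pool.Agent.H87.Lib.Helper332.SAD.P_small_weight

/-!
# The space and the positive result under the continuum hypothesis
-/

set_option autoImplicit false

namespace Pool.Agent.Helper332.SADSpace

open Cardinal Set Topology

/-- strongly almost disjoint functions give a scattered left-separated compact space `K` of size
at most continuum such that `C_p(K)` maps onto the cube of weight `ℵ₁` -/
theorem space_of_sad (I : Type) (f : I → Om → ℕ) (e : I → Set Om)
    (hf : ∀ i j, i ≠ j → {a | f i a = f j a}.Finite) (he : Function.Surjective e) :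
    ∃ (K : Type) (_ : TopologicalSpace K), CompactSpace K ∧ T2Space K ∧ Scattered K ∧
      LeftSeparated K ∧ #K ≤ 𝔠 ∧
      ∃ (Y : Type) (_ : TopologicalSpace Y) (φ : {g : K → ℝ // Continuous g} → Y),
        CompactSpace Y ∧ T2Space Y ∧ Continuous φ ∧ Function.Surjective φ ∧
        ¬ TopologicalSpace.MetrizableSpace Y := by
  obtain ⟨f', y, hf', hy⟩ := transfer I f e hf he
  have hX := XX_ad f' y hf'
  obtain ⟨v, hv, hvs⟩ := exists_nat_bool_continuous_surjective_of_compact (Set.Icc (0 : ℝ) 1)
  have hv' : Continuous fun x => (v x : ℝ) := continuous_subtype_val.comp hv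
  choose ψ h1 h2 h3 using fun a => key f' y hf' a (fun x => (v x : ℝ)) hv' fun x => (v x).2
  refine ⟨Psi (XX f' y), inferInstance, psi_compact _, psi_t2 _ hX, psi_scattered _, psi_left _,
    ?_, Om → Set.Icc (0 : ℝ) 1, inferInstance, fun g a => ⟨ψ a g, h2 a g⟩, inferInstance,
    inferInstance, continuous_pi fun a => (h1 a).subtype_mk _, ?_, cube_not_metrizable⟩
  · have e1 : Pt BB Cant ≃ Option (BB ⊕ Cant) :=
      { toFun := fun x => match x with
          | Pt.base b => some (Sum.inl b)
          | Pt.pt i => some (Sum.inr i)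
          | Pt.inf => none
        invFun := fun x => match x with
          | some (Sum.inl b) => Pt.base b
          | some (Sum.inr i) => Pt.pt i
          | none => Pt.inf
        left_inv := by rintro (b | i | _) <;> rfl
        right_inv := by rintro (_ | (b | i)) <;> rfl }
    have e2 : #(Psi (XX f' y)) = #(Option (BB ⊕ Cant)) := Cardinal.mk_congr e1
    have e3 : #Om = ℵ₁ := by simp
    rw [e2]
    have e4 : #BB ≤ 𝔠 := by
      have e5 : #DD ≤ ℵ₀ := Cardinal.mk_le_aleph0
      have : #BB = #DD + #Om * (#ℕ * #DD) := by simp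
      rw [this, e3]
      have e6 : ℵ₁ ≤ 𝔠 := aleph_one_le_continuum
      refine Cardinal.add_le_of_le aleph0_le_continuum (e5.trans aleph0_le_continuum) ?_
      refine Cardinal.mul_le_of_le aleph0_le_continuum e6 ?_
      refine Cardinal.mul_le_of_le aleph0_le_continuum ?_ (e5.trans aleph0_le_continuum)
      simpa using aleph0_le_continuum
    have e7 : #Cant = 𝔠 := by simp
    rw [Cardinal.mk_option, Cardinal.mk_sum, Cardinal.lift_id, Cardinal.lift_id, e7]
    refine Cardinal.add_le_of_le aleph0_le_continuum
      (Cardinal.add_le_of_le aleph0_le_continuum e4 le_rfl) ?_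
    exact Cardinal.one_le_aleph0.trans aleph0_le_continuum
  · intro z
    choose w hw using hvs
    obtain ⟨i, hi⟩ := hy fun a => w (z a)
    refine ⟨⟨chi (XX f' y) i, chi_continuous _ hX i⟩, funext fun a => Subtype.ext ?_⟩
    change ψ a _ = (z a : ℝ)
    rw [h3 a i, congrFun hi a, hw]

/-- Under the continuum hypothesis every compact continuous image of `C_p(K)` is metrizable for
every left-separated compact space `K`. -/
theorem metrizable_of_left (hCH : (ℵ₁ : Cardinal.{0}) = 𝔠) (K : Type) [TopologicalSpace K] [CompactSpace K]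
    [T2Space K] (hK : LeftSeparated K) (Y : Type) [TopologicalSpace Y] [CompactSpace Y]
    [T2Space Y] (φ : {g : K → ℝ // Continuous g} → Y) (h : Continuous φ)
    (hs : Function.Surjective φ) : TopologicalSpace.MetrizableSpace Y := by
  refine Pool.Agent.Helper937.Dya.main_general K (fun A hA => ?_) Y φ h hs
  have h1 : #(closure A) ≤ ℵ₁ := (closure_le K hK A hA).trans_eq hCH.symm
  have : CompactSpace (closure A) := isCompact_iff_compactSpace.1 isClosed_closure.isCompact
  exact ⟨closure A, isClosed_closure, small_weight _ h1, fun x hx hx' => absurd hx hx'⟩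

end Pool.Agent.Helper332.SADSpace
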