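import Mathlib
import Pool.Agent.H87.Lib.Helper332.SAD.Forcing
import Pool.Agent.H87.Lib.Helper332.SAD.SpaceMain

/-!
# The statements used in the final theorems
-/

set_option autoImplicit false

namespace Pool.Agent.Helper332.SAD

open Cardinal Set

/-- The hypothesis: there are a set `I`, functions `f i : ω₁ → ω` (`i ∈ I`) any two of which agree
only at finitely many places, and a function `e` from `I` onto the power set of `ω₁`. -/
def StronglyAlmostDisjoint : Prop :=
  ∃ (I : Type) (f : I → Om → ℕ) (e : I → Set Om),
    (∀ i j, i ≠ j → {a | f i a = f j a}.Finite) ∧ Function.Surjective e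

/-- The continuum hypothesis. -/
def CH : Prop := (ℵ₁ : Cardinal.{0}) = 𝔠

end Pool.Agent.Helper332.SAD
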